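import Mathlib

/-!
# Regular nut graphs: definitions
-/

set_option autoImplicit false

namespace Pool.Agent.TH903.Nut

open Finset

/-- `y` is in the kernel of the adjacency matrix of `G`. -/
def InKer {V : Type} [Fintype V] (G : SimpleGraph V) (y : V → ℝ) : Prop := by
  classical
  exact ∀ v : V, ∑ u : V, (if G.Adj v u then y u else 0) = 0

/-- `G` is a nut graph: at least two vertices, and the kernel of the adjacency matrix consists of
the multiples of one vector without zero entries. -/
def IsNut {V : Type} [Fintype V] (G : SimpleGraph V) : Prop :=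
  2 ≤ Fintype.card V ∧ ∃ x : V → ℝ, (∀ v, x v ≠ 0) ∧ InKer G x ∧
    ∀ y : V → ℝ, InKer G y → ∃ c : ℝ, ∀ v, y v = c * x v

/-- `G` is `ρ`-regular. -/
def IsReg {V : Type} [Fintype V] (G : SimpleGraph V) (ρ : ℕ) : Prop := by
  classical
  exact ∀ v : V, (univ.filter (fun u : V => G.Adj v u)).card = ρ

/-- `N ρ` is the set of the orders of the `ρ`-regular nut graphs. -/
def N (ρ : ℕ) : Set ℕ := {n | ∃ G : SimpleGraph (Fin n), IsNut G ∧ IsReg G ρ}

end Pool.Agent.TH903.Nut
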