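import Mathlib
import Pool.Agent.TH903.Nut.Defs
set_option autoImplicit false

namespace Pool.Agent.TH903.Nut
open Finset Classical

theorem inKer_iff {V : Type} [Fintype V] (G : SimpleGraph V) (y : V → ℝ) :
    InKer G y ↔ ∀ v : V, ∑ u : V, (if G.Adj v u then y u else 0) = 0 := Iff.rfl

theorem isReg_iff {V : Type} [Fintype V] (G : SimpleGraph V) (ρ : ℕ) :
    IsReg G ρ ↔ ∀ v : V, ∑ u : V, (if G.Adj v u then (1 : ℝ) else 0) = ρ := by
  unfold IsReg
  constructor
  · intro h v
    rw [← h v, ← Finset.sum_filter]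
    simp
  · intro h v
    have h1 := h v
    rw [← Finset.sum_filter, Finset.sum_const, nsmul_eq_mul, mul_one] at h1
    exact_mod_cast h1

theorem mem_N_of {V : Type} [Fintype V] (G : SimpleGraph V) {ρ : ℕ} (h : IsNut G)
    (hr : IsReg G ρ) : Fintype.card V ∈ N ρ := by
  let e : V ≃ Fin (Fintype.card V) := Fintype.equivFin V
  obtain ⟨G', hG'⟩ : ∃ G' : SimpleGraph (Fin (Fintype.card V)),
      ∀ u v, G'.Adj u v ↔ G.Adj (e.symm u) (e.symm v) := ⟨G.comap e.symm, fun _ _ => Iff.rfl⟩
  have hs : ∀ (y : V → ℝ) (v : Fin (Fintype.card V)),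
      ∑ u, (if G'.Adj v u then y (e.symm u) else 0) =
      ∑ u : V, (if G.Adj (e.symm v) u then y u else 0) := by
    intro y v
    rw [← Equiv.sum_comp e.symm]
    refine Finset.sum_congr rfl fun u _ => ?_
    by_cases hu : G.Adj (e.symm v) (e.symm u)
    · rw [if_pos hu, if_pos ((hG' v u).2 hu)]
    · rw [if_neg hu, if_neg (fun h5 => hu ((hG' v u).1 h5))]
  refine ⟨G', ⟨?_, ?_⟩, ?_⟩
  · rw [Fintype.card_fin]
    exact h.1
  · obtain ⟨x, hx0, hx1, hx2⟩ := h.2
    refine ⟨fun i => x (e.symm i), fun i => hx0 _, ?_, ?_⟩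
    · rw [inKer_iff] at hx1 ⊢
      intro v
      rw [hs x v]
      exact hx1 _
    · intro y hy
      obtain ⟨c, hc⟩ := hx2 (fun v => y (e v)) (by
        rw [inKer_iff] at hy ⊢
        intro v
        have h5 := hy (e v)
        have h6 := hs (fun v => y (e v)) (e v)
        simp only [Equiv.apply_symm_apply, Equiv.symm_apply_apply] at h6
        rw [← h6]
        exact h5)
      refine ⟨c, fun v => ?_⟩
      have := hc (e.symm v)
      simpa using this
  · rw [isReg_iff] at hr ⊢
    intro v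
    have := hs (fun _ => 1) v
    rw [this]
    exact hr _

section
variable {V : Type} [Fintype V] (G : SimpleGraph V) (v0 : V)

/-- The type of neighbours of `v0`. -/
abbrev Nb : Type := {i : V // G.Adj v0 i}

/-- Adjacency in the Fowler extension. -/
def FAdj : V ⊕ (Nb G v0 ⊕ Nb G v0) → V ⊕ (Nb G v0 ⊕ Nb G v0) → Prop
  | .inl a, .inl b => G.Adj a b ∧ a ≠ v0 ∧ b ≠ v0
  | .inl a, .inr (.inl _) => a = v0
  | .inl a, .inr (.inr i) => a = i.1
  | .inr (.inl _), .inl a => a = v0
  | .inr (.inr i), .inl a => a = i.1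
  | .inr (.inl i), .inr (.inr j) => i ≠ j
  | .inr (.inr i), .inr (.inl j) => j ≠ i
  | .inr (.inl _), .inr (.inl _) => False
  | .inr (.inr _), .inr (.inr _) => False

/-- The Fowler extension. -/
def FG : SimpleGraph (V ⊕ (Nb G v0 ⊕ Nb G v0)) where
  Adj := FAdj G v0
  symm := by
    refine ⟨?_⟩
    rintro (a | a | a) (b | b | b) h
    · exact ⟨h.1.symm, h.2.2, h.2.1⟩
    · exact h
    · exact h
    · exact h
    · exact h
    · exact h
    · exact h
    · exact h
    · exact h
  loopless := by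
    refine ⟨?_⟩
    rintro (a | a | a) h
    · exact h.1.ne rfl
    · exact h
    · exact h

theorem sum_nb (g : V → ℝ) :
    ∑ i : Nb G v0, g i.1 = ∑ b : V, (if G.Adj v0 b then g b else 0) := by
  rw [← Finset.sum_filter]
  exact (Finset.sum_subtype (univ.filter (fun b => G.Adj v0 b)) (fun x => by simp) g).symm

theorem sum_split (y : V ⊕ (Nb G v0 ⊕ Nb G v0) → ℝ) (v : V ⊕ (Nb G v0 ⊕ Nb G v0)) :
    ∑ u, (if (FG G v0).Adj v u then y u else 0) =
      ∑ b : V, (if FAdj G v0 v (.inl b) then y (.inl b) else 0) +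
      (∑ i : Nb G v0, (if FAdj G v0 v (.inr (.inl i)) then y (.inr (.inl i)) else 0) +
       ∑ i : Nb G v0, (if FAdj G v0 v (.inr (.inr i)) then y (.inr (.inr i)) else 0)) := by
  rw [Fintype.sum_sum_type, Fintype.sum_sum_type]
  rfl

theorem sum_v0 (y : V ⊕ (Nb G v0 ⊕ Nb G v0) → ℝ) :
    ∑ u, (if (FG G v0).Adj (.inl v0) u then y u else 0) = ∑ i : Nb G v0, y (.inr (.inl i)) := by
  rw [sum_split]
  have h1 : ∑ b : V, (if FAdj G v0 (.inl v0) (.inl b) then y (.inl b) else 0) = 0 := by
    refine Finset.sum_eq_zero fun b _ => if_neg ?_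
    rintro ⟨_, h, _⟩
    exact h rfl
  have h2 : ∑ i : Nb G v0, (if FAdj G v0 (.inl v0) (.inr (.inr i)) then y (.inr (.inr i)) else 0)
      = 0 := by
    refine Finset.sum_eq_zero fun i _ => if_neg ?_
    intro h
    exact i.2.ne h
  have h3 : ∑ i : Nb G v0, (if FAdj G v0 (.inl v0) (.inr (.inl i)) then y (.inr (.inl i)) else 0)
      = ∑ i : Nb G v0, y (.inr (.inl i)) :=
    Finset.sum_congr rfl fun i _ => if_pos rfl
  rw [h1, h2, h3, zero_add, add_zero]

theorem sum_a (y : V ⊕ (Nb G v0 ⊕ Nb G v0) → ℝ) (t : ℝ) (ht : ∀ i, y (.inr (.inr i)) = t)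
    (a : V) (ha : a ≠ v0) :
    ∑ u, (if (FG G v0).Adj (.inl a) u then y u else 0) =
      ∑ b : V, (if G.Adj a b then (if b = v0 then t else y (.inl b)) else 0) := by
  rw [sum_split]
  have h2 : ∑ i : Nb G v0, (if FAdj G v0 (.inl a) (.inr (.inl i)) then y (.inr (.inl i)) else 0)
      = 0 := Finset.sum_eq_zero fun i _ => if_neg ha
  have h3 : ∑ i : Nb G v0, (if FAdj G v0 (.inl a) (.inr (.inr i)) then y (.inr (.inr i)) else 0)
      = ∑ b : V, (if b = v0 then (if G.Adj a v0 then t else 0) else 0) := by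
    have e1 : ∑ i : Nb G v0, (if FAdj G v0 (.inl a) (.inr (.inr i)) then y (.inr (.inr i)) else 0)
        = ∑ i : Nb G v0, (fun b : V => if a = b then t else 0) i.1 := by
      refine Finset.sum_congr rfl fun i _ => ?_
      simp only [ht i]
      rfl
    rw [e1, sum_nb G v0 (fun b : V => if a = b then t else 0), Finset.sum_ite_eq' univ v0, if_pos (Finset.mem_univ _)]
    have e2 : ∀ b : V, (if G.Adj v0 b then (if a = b then t else 0) else 0) =
        if a = b then (if G.Adj a v0 then t else 0) else 0 := by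
      intro b
      by_cases hab : a = b
      · subst hab
        rw [if_pos rfl, if_pos rfl, G.adj_comm v0 a]
      · rw [if_neg hab, if_neg hab, ite_self]
    rw [Finset.sum_congr rfl fun b _ => e2 b, Finset.sum_ite_eq univ a,
      if_pos (Finset.mem_univ _)]
  rw [h2, h3, zero_add, ← Finset.sum_add_distrib]
  refine Finset.sum_congr rfl fun b _ => ?_
  by_cases hb : b = v0
  · subst hb
    rw [if_pos rfl, if_pos rfl, if_neg (fun h : FAdj G b (.inl a) (.inl b) => h.2.2 rfl), zero_add]
  · rw [if_neg hb, if_neg hb, add_zero]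
    by_cases hab : G.Adj a b
    · rw [if_pos hab, if_pos (show FAdj G v0 (.inl a) (.inl b) from ⟨hab, ha, hb⟩)]
    · rw [if_neg hab, if_neg (fun h : FAdj G v0 (.inl a) (.inl b) => hab h.1)]

theorem sum_q (y : V ⊕ (Nb G v0 ⊕ Nb G v0) → ℝ) (i : Nb G v0) :
    ∑ u, (if (FG G v0).Adj (.inr (.inl i)) u then y u else 0) =
      y (.inl v0) + (∑ j : Nb G v0, y (.inr (.inr j)) - y (.inr (.inr i))) := by
  rw [sum_split]
  have h1 : ∑ b : V, (if FAdj G v0 (.inr (.inl i)) (.inl b) then y (.inl b) else 0) =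
      y (.inl v0) := by
    have : ∀ b : V, (if FAdj G v0 (.inr (.inl i)) (.inl b) then y (.inl b) else 0) =
        if b = v0 then y (.inl b) else 0 := fun b => rfl
    rw [Finset.sum_congr rfl fun b _ => this b, Finset.sum_ite_eq' univ v0,
      if_pos (Finset.mem_univ _)]
  have h2 : ∑ j : Nb G v0, (if FAdj G v0 (.inr (.inl i)) (.inr (.inl j)) then
      y (.inr (.inl j)) else 0) = 0 := Finset.sum_eq_zero fun j _ => if_neg (fun h => h)
  have h3 : ∑ j : Nb G v0, (if FAdj G v0 (.inr (.inl i)) (.inr (.inr j)) then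
      y (.inr (.inr j)) else 0) = ∑ j : Nb G v0, y (.inr (.inr j)) - y (.inr (.inr i)) := by
    have e1 : ∀ j : Nb G v0, (if FAdj G v0 (.inr (.inl i)) (.inr (.inr j)) then
        y (.inr (.inr j)) else 0) = y (.inr (.inr j)) - if i = j then y (.inr (.inr j)) else 0 := by
      intro j
      by_cases hij : i = j
      · rw [if_pos hij, if_neg (fun h : FAdj G v0 (.inr (.inl i)) (.inr (.inr j)) => h hij),
          sub_self]
      · rw [if_neg hij, if_pos (show FAdj G v0 (.inr (.inl i)) (.inr (.inr j)) from hij),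
          sub_zero]
    rw [Finset.sum_congr rfl fun j _ => e1 j, Finset.sum_sub_distrib, Finset.sum_ite_eq univ i,
      if_pos (Finset.mem_univ _)]
  rw [h1, h2, h3, zero_add]

theorem sum_p (y : V ⊕ (Nb G v0 ⊕ Nb G v0) → ℝ) (i : Nb G v0) :
    ∑ u, (if (FG G v0).Adj (.inr (.inr i)) u then y u else 0) =
      y (.inl i.1) + (∑ j : Nb G v0, y (.inr (.inl j)) - y (.inr (.inl i))) := by
  rw [sum_split]
  have h1 : ∑ b : V, (if FAdj G v0 (.inr (.inr i)) (.inl b) then y (.inl b) else 0) =
      y (.inl i.1) := by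
    have : ∀ b : V, (if FAdj G v0 (.inr (.inr i)) (.inl b) then y (.inl b) else 0) =
        if b = i.1 then y (.inl b) else 0 := fun b => rfl
    rw [Finset.sum_congr rfl fun b _ => this b, Finset.sum_ite_eq' univ i.1,
      if_pos (Finset.mem_univ _)]
  have h2 : ∑ j : Nb G v0, (if FAdj G v0 (.inr (.inr i)) (.inr (.inr j)) then
      y (.inr (.inr j)) else 0) = 0 := Finset.sum_eq_zero fun j _ => if_neg (fun h => h)
  have h3 : ∑ j : Nb G v0, (if FAdj G v0 (.inr (.inr i)) (.inr (.inl j)) then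
      y (.inr (.inl j)) else 0) = ∑ j : Nb G v0, y (.inr (.inl j)) - y (.inr (.inl i)) := by
    have e1 : ∀ j : Nb G v0, (if FAdj G v0 (.inr (.inr i)) (.inr (.inl j)) then
        y (.inr (.inl j)) else 0) = y (.inr (.inl j)) - if i = j then y (.inr (.inl j)) else 0 := by
      intro j
      by_cases hij : i = j
      · rw [if_pos hij, if_neg (fun h : FAdj G v0 (.inr (.inr i)) (.inr (.inl j)) => h hij.symm),
          sub_self]
      · rw [if_neg hij, if_pos (show FAdj G v0 (.inr (.inr i)) (.inr (.inl j)) from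
          fun h => hij h.symm), sub_zero]
    rw [Finset.sum_congr rfl fun j _ => e1 j, Finset.sum_sub_distrib, Finset.sum_ite_eq univ i,
      if_pos (Finset.mem_univ _)]
  rw [h1, h2, h3, add_zero]

end

theorem fowler_type {V : Type} [Fintype V] (G : SimpleGraph V) (v0 : V) {ρ : ℕ} (hρ : 2 ≤ ρ)
    (h : IsNut G) (hr : IsReg G ρ) : Fintype.card V + 2 * ρ ∈ N ρ := by
  have hr1 := (isReg_iff G ρ).1 hr
  have hcard : (Fintype.card (Nb G v0) : ℝ) = ρ := by
    have h1 := sum_nb G v0 (fun _ => (1 : ℝ))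
    rw [hr1 v0] at h1
    rw [← h1]
    simp
  have hcard' : Fintype.card (Nb G v0) = ρ := by exact_mod_cast hcard
  have hone : ∑ _j : Nb G v0, (1 : ℝ) = ρ := by
    rw [Finset.sum_const, Finset.card_univ, nsmul_eq_mul, mul_one, hcard]
  have hconst : ∀ t : ℝ, ∑ _j : Nb G v0, t = ρ * t := by
    intro t
    rw [Finset.sum_const, Finset.card_univ, nsmul_eq_mul, hcard]
  have hρ' : (ρ : ℝ) - 1 ≠ 0 := by
    have : (2 : ℝ) ≤ ρ := by exact_mod_cast hρ
    intro h5
    linarith
  have hcV : Fintype.card (V ⊕ (Nb G v0 ⊕ Nb G v0)) = Fintype.card V + 2 * ρ := by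
    rw [Fintype.card_sum, Fintype.card_sum, hcard']
    ring
  rw [← hcV]
  refine mem_N_of (FG G v0) ⟨?_, ?_⟩ ?_
  · rw [hcV]
    have := h.1
    omega
  · obtain ⟨x, hx0, hx1, hx2⟩ := h.2
    rw [inKer_iff] at hx1
    let y0 : V ⊕ (Nb G v0 ⊕ Nb G v0) → ℝ := fun u => match u with
      | .inl a => if a = v0 then -((ρ : ℝ) - 1) * x v0 else x a
      | .inr (.inl i) => x i.1
      | .inr (.inr _) => x v0
    have hy0v : y0 (.inl v0) = -((ρ : ℝ) - 1) * x v0 := if_pos rfl
    have hy0a : ∀ a, a ≠ v0 → y0 (.inl a) = x a := fun a ha => if_neg ha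
    have hy0q : ∀ i : Nb G v0, y0 (.inr (.inl i)) = x i.1 := fun i => rfl
    have hy0p : ∀ i : Nb G v0, y0 (.inr (.inr i)) = x v0 := fun i => rfl
    refine ⟨y0, ?_, ?_, ?_⟩
    · rintro (a | i | i)
      · by_cases ha : a = v0
        · rw [ha, hy0v]
          exact mul_ne_zero (neg_ne_zero.2 hρ') (hx0 v0)
        · rw [hy0a a ha]
          exact hx0 a
      · exact hx0 _
      · exact hx0 _
    · rw [inKer_iff]
      have hq : ∑ i : Nb G v0, x i.1 = 0 := by rw [sum_nb G v0 x, hx1 v0]
      rintro (a | i | i)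
      · by_cases ha : a = v0
        · subst ha
          rw [sum_v0]
          exact hq
        · rw [sum_a G v0 y0 (x v0) hy0p a ha]
          refine Eq.trans (Finset.sum_congr rfl fun b _ => ?_) (hx1 a)
          by_cases hb : b = v0
          · rw [if_pos hb, hb]
          · rw [if_neg hb, hy0a b hb]
      · rw [sum_q, hy0v, Finset.sum_congr rfl fun j _ => hy0p j, hy0p i, hconst]
        ring
      · rw [sum_p, hy0a _ i.2.ne', Finset.sum_congr rfl fun j _ => hy0q j, hy0q i, hq]
        ring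
    · intro y hy
      rw [inKer_iff] at hy
      have hQ : ∑ j : Nb G v0, y (.inr (.inl j)) = 0 := by
        have := hy (.inl v0)
        rwa [sum_v0] at this
      have hqi : ∀ i : Nb G v0, y (.inr (.inl i)) = y (.inl i.1) := by
        intro i
        have := hy (.inr (.inr i))
        rw [sum_p, hQ] at this
        linarith
      obtain ⟨t, ht⟩ : ∃ t : ℝ, t = y (.inl v0) + ∑ j : Nb G v0, y (.inr (.inr j)) := ⟨_, rfl⟩
      have hpi : ∀ i : Nb G v0, y (.inr (.inr i)) = t := by
        intro i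
        have := hy (.inr (.inl i))
        rw [sum_q] at this
        linarith
      have hv : y (.inl v0) = -((ρ : ℝ) - 1) * t := by
        have h5 : ∑ j : Nb G v0, y (.inr (.inr j)) = ρ * t := by
          rw [Finset.sum_congr rfl fun j _ => hpi j, hconst]
        rw [h5] at ht
        linarith
      obtain ⟨c, hc⟩ := hx2 (fun b => if b = v0 then t else y (.inl b)) (by
        rw [inKer_iff]
        intro a
        by_cases ha : a = v0
        · subst ha
          rw [← sum_nb G a (fun b => if b = a then t else y (.inl b)), ← hQ]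
          refine Finset.sum_congr rfl fun i _ => ?_
          rw [hqi i]
          exact if_neg i.2.ne'
        · have := hy (.inl a)
          rwa [sum_a G v0 y t hpi a ha] at this)
      have hcv : t = c * x v0 := by
        have := hc v0
        simpa using this
      have hca : ∀ a, a ≠ v0 → y (.inl a) = c * x a := by
        intro a ha
        have := hc a
        simpa [ha] using this
      refine ⟨c, ?_⟩
      rintro (a | i | i)
      · by_cases ha : a = v0
        · rw [ha, hv, hy0v, hcv]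
          ring
        · rw [hy0a a ha, hca a ha]
      · rw [hqi, hy0q i, hca _ i.2.ne']
      · rw [hpi, hy0p i, hcv]
  · rw [isReg_iff]
    rintro (a | i | i)
    · by_cases ha : a = v0
      · subst ha
        rw [sum_v0 G a (fun _ => 1), hone]
      · rw [sum_a G v0 (fun _ => 1) 1 (fun _ => rfl) a ha, ← hr1 a]
        refine Finset.sum_congr rfl fun b _ => ?_
        rw [ite_self]
    · rw [sum_q G v0 (fun _ => 1), hone]
      ring
    · rw [sum_p G v0 (fun _ => 1), hone]
      ring

theorem fowler {n ρ : ℕ} (hρ : 2 ≤ ρ) (h : n ∈ N ρ) : n + 2 * ρ ∈ N ρ := by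
  obtain ⟨G, hG, hr⟩ := h
  have h1 := hG.1
  rw [Fintype.card_fin] at h1
  have h2 := fowler_type G ⟨0, by omega⟩ hρ hG hr
  rwa [Fintype.card_fin] at h2

end Pool.Agent.TH903.Nut
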