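import Mathlib
import Pool.Agent.TH903.Nut.Defs

/-!
# A family of nut graphs of odd degree
-/

set_option autoImplicit false

namespace Pool.Agent.TH903.Nut

open Finset

/-- the vertices: `(k, t, b)` -/
abbrev W (M : ℕ) : Type := ZMod M × Bool × Bool

/-- offsets of the half-joins -/
def S (t b : Bool) (d : ℕ) : Prop :=
  (t = true ∧ d = 1) ∨ (t = false ∧ d = 2) ∨ (t = false ∧ b = true ∧ d = 3) ∨
    (t = false ∧ b = false ∧ d = 4)

/-- the joins -/
def Zr (h Q : ℕ) (β γ : Bool) (d : ℕ) (t t' : Bool) : Prop :=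
  (6 ≤ d ∧ d ≤ 5 + Q) ∨ (2 * h ≤ d + 5 + Q ∧ d + 6 ≤ 2 * h) ∨
    (β = true ∧ t = t' ∧ (d = 5 ∨ d + 5 = 2 * h)) ∨ (γ = true ∧ t ≠ t' ∧ d = 0) ∨
    (t = true ∧ t' = true ∧ d = h)

/-- adjacency of `(k, t, b)` and `(k', t', b')`, where `d`, `d'` are the residues of
`k' - k`, `k - k'` -/
def Aj (h Q : ℕ) (β γ : Bool) (d d' : ℕ) (t b t' b' : Bool) : Prop :=
  (t' = b ∧ S t b d) ∨ (t = b' ∧ S t' b' d') ∨ Zr h Q β γ d t t'

instance (t b : Bool) (d : ℕ) : Decidable (S t b d) := by unfold S; infer_instance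
instance (h Q : ℕ) (β γ : Bool) (d : ℕ) (t t' : Bool) : Decidable (Zr h Q β γ d t t') := by
  unfold Zr; infer_instance
instance (h Q : ℕ) (β γ : Bool) (d d' : ℕ) (t b t' b' : Bool) :
    Decidable (Aj h Q β γ d d' t b t' b') := by unfold Aj; infer_instance

theorem S_bd {t b : Bool} {d : ℕ} (h : S t b d) : 1 ≤ d ∧ d ≤ 4 := by
  unfold S at h; omega

theorem Zr_bd {h Q : ℕ} {β γ : Bool} {d : ℕ} {t t' : Bool} (hQ : Q + 6 ≤ h)
    (hz : Zr h Q β γ d t t') : d = 0 ∨ (5 ≤ d ∧ d + 5 ≤ 2 * h) := by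
  unfold Zr at hz
  rcases hz with h1 | h1 | h1 | h1 | h1 <;> omega

theorem Zr_symm {h Q : ℕ} {β γ : Bool} {d d' : ℕ} {t t' : Bool}
    (hd : (d = 0 ∧ d' = 0) ∨ d + d' = 2 * h) (hd' : d' < 2 * h) (hQ : Q + 6 ≤ h)
    (hz : Zr h Q β γ d t t') : Zr h Q β γ d' t' t := by
  unfold Zr at hz ⊢
  rcases hz with h1 | h1 | ⟨h1, h2, h3⟩ | ⟨h1, h2, h3⟩ | ⟨h1, h2, h3⟩
  · right; left; omega
  · left; omega
  · right; right; left; exact ⟨h1, h2.symm, by omega⟩
  · right; right; right; left; exact ⟨h1, h2.symm, by omega⟩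
  · right; right; right; right; exact ⟨h2, h1, by omega⟩

theorem val_rel {M h : ℕ} [NeZero M] (hM : M = 2 * h) (δ : ZMod M) :
    (δ.val = 0 ∧ (-δ).val = 0) ∨ δ.val + (-δ).val = 2 * h := by
  rw [ZMod.neg_val]
  split_ifs with h0
  · left; subst h0; simp
  · right
    have := ZMod.val_lt δ
    omega

/-- the graph -/
def Gr (M h Q : ℕ) [NeZero M] (β γ : Bool) (hM : M = 2 * h) (hQ : Q + 6 ≤ h) :
    SimpleGraph (W M) where
  Adj u v := Aj h Q β γ (v.1 - u.1).val (u.1 - v.1).val u.2.1 u.2.2 v.2.1 v.2.2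
  symm := ⟨by
    intro u v huv
    unfold Aj at huv ⊢
    rcases huv with h1 | h1 | h1
    · right; left; exact h1
    · left; exact h1
    · right; right
      have h2 := ZMod.val_lt (u.1 - v.1)
      refine Zr_symm ?_ (by omega) hQ h1
      have := val_rel hM (v.1 - u.1)
      rwa [neg_sub] at this⟩
  loopless := ⟨by
    intro u hu
    unfold Aj at hu
    rw [sub_self, ZMod.val_zero] at hu
    rcases hu with h1 | h1 | h1
    · have := S_bd h1.2; omega
    · have := S_bd h1.2; omega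
    · unfold Zr at h1
      rcases h1 with h2 | h2 | ⟨_, _, h2⟩ | ⟨_, h2, _⟩ | ⟨_, _, h2⟩
      · omega
      · omega
      · omega
      · exact h2 rfl
      · omega⟩

theorem ite_or3 {p q r : Prop} [Decidable p] [Decidable q] [Decidable r]
    (h1 : ¬ (p ∧ q)) (h2 : ¬ (p ∧ r)) (h3 : ¬ (q ∧ r)) (a : ℝ) :
    (if p ∨ q ∨ r then a else 0) =
      (if p then a else 0) + (if q then a else 0) + (if r then a else 0) := by
  by_cases hp : p
  · have hq : ¬ q := fun hq => h1 ⟨hp, hq⟩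
    have hr : ¬ r := fun hr => h2 ⟨hp, hr⟩
    simp [hp, hq, hr]
  · by_cases hq : q
    · have hr : ¬ r := fun hr => h3 ⟨hq, hr⟩
      simp [hp, hq, hr]
    · simp [hp, hq]

theorem sum_val {M : ℕ} [NeZero M] {s : ℕ} (hs : s < M) (g : ZMod M → ℝ) :
    ∑ δ : ZMod M, (if δ.val = s then g δ else 0) = g (s : ZMod M) := by
  have h1 : ∀ δ : ZMod M, (δ.val = s) ↔ (s : ZMod M) = δ := by
    intro δ
    constructor
    · intro h; rw [← h, ZMod.natCast_zmod_val]
    · intro h; rw [← h, ZMod.val_natCast, Nat.mod_eq_of_lt hs]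
  simp only [h1]
  rw [Finset.sum_ite_eq]
  simp

theorem sum_val_neg {M : ℕ} [NeZero M] {s : ℕ} (hs : s < M) (g : ZMod M → ℝ) :
    ∑ δ : ZMod M, (if (-δ).val = s then g δ else 0) = g (-(s : ZMod M)) := by
  rw [← Equiv.sum_comp (Equiv.neg (ZMod M))]
  simp only [Equiv.neg_apply, neg_neg]
  exact sum_val hs (fun δ => g (-δ))

/-- the out-part -/
def Out {M : ℕ} (F : ZMod M → Bool → Bool → ℝ) (t b : Bool) : ℝ :=
  if t = true then F 1 b true + F 1 b false
  else (F 2 b true + F 2 b false) +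
    (if b = true then F 3 b true + F 3 b false else F 4 b true + F 4 b false)

/-- the in-part -/
def In {M : ℕ} (F : ZMod M → Bool → Bool → ℝ) (t : Bool) : ℝ :=
  F (-1) true t + F (-2) false t + (if t = true then F (-3) false t else F (-4) false t)

/-- the part of the joins -/
def ZZ {M : ℕ} [NeZero M] (h Q : ℕ) (β γ : Bool) (F : ZMod M → Bool → Bool → ℝ) (t : Bool) : ℝ :=
  ∑ δ : ZMod M, ∑ t' : Bool, (if Zr h Q β γ δ.val t t' then F δ t' true + F δ t' false else 0)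

theorem sum_out {M : ℕ} [NeZero M] (hM : 4 < M) (F : ZMod M → Bool → Bool → ℝ) (t b : Bool) :
    ∑ δ : ZMod M, ∑ t' : Bool, ∑ b' : Bool,
      (if t' = b ∧ S t b δ.val then F δ t' b' else 0) = Out F t b := by
  have e1 := fun g : ZMod M → ℝ => sum_val (s := 1) (by omega) g
  have e2 := fun g : ZMod M → ℝ => sum_val (s := 2) (by omega) g
  have e3 := fun g : ZMod M → ℝ => sum_val (s := 3) (by omega) g
  have e4 := fun g : ZMod M → ℝ => sum_val (s := 4) (by omega) g
  simp only [Nat.cast_one, Nat.cast_ofNat] at e1 e2 e3 e4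
  have or2 : ∀ (δ : ZMod M) (a c : ℕ) (x : ℝ), a ≠ c →
      (if δ.val = a ∨ δ.val = c then x else 0) =
        (if δ.val = a then x else 0) + (if δ.val = c then x else 0) := by
    intro δ a c x hac
    by_cases h1 : δ.val = a
    · have h2 : ¬ δ.val = c := by omega
      simp [h1, hac]
    · simp [h1]
  cases t <;> cases b <;>
    simp [S, Out, Fintype.sum_bool, Finset.sum_add_distrib, e1, e2, e3, e4, or2]
  all_goals ring

theorem sum_in {M : ℕ} [NeZero M] (hM : 4 < M) (F : ZMod M → Bool → Bool → ℝ) (t : Bool) :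
    ∑ δ : ZMod M, ∑ t' : Bool, ∑ b' : Bool,
      (if t = b' ∧ S t' b' (-δ).val then F δ t' b' else 0) = In F t := by
  have e1 := fun g : ZMod M → ℝ => sum_val_neg (s := 1) (by omega) g
  have e2 := fun g : ZMod M → ℝ => sum_val_neg (s := 2) (by omega) g
  have e3 := fun g : ZMod M → ℝ => sum_val_neg (s := 3) (by omega) g
  have e4 := fun g : ZMod M → ℝ => sum_val_neg (s := 4) (by omega) g
  simp only [Nat.cast_one, Nat.cast_ofNat] at e1 e2 e3 e4
  have or2 : ∀ (δ : ZMod M) (a c : ℕ) (x : ℝ), a ≠ c →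
      (if (-δ).val = a ∨ (-δ).val = c then x else 0) =
        (if (-δ).val = a then x else 0) + (if (-δ).val = c then x else 0) := by
    intro δ a c x hac
    by_cases h1 : (-δ).val = a
    · have h2 : ¬ (-δ).val = c := by omega
      simp [h1, hac]
    · simp [h1]
  cases t <;>
    simp [S, In, Fintype.sum_bool, Finset.sum_add_distrib, e1, e2, e3, e4, or2]
  all_goals ring

theorem sum_Aj {M h Q : ℕ} [NeZero M] (β γ : Bool) (hM : M = 2 * h) (hQ : Q + 6 ≤ h)
    (F : ZMod M → Bool → Bool → ℝ) (t b : Bool) :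
    ∑ δ : ZMod M, ∑ t' : Bool, ∑ b' : Bool,
      (if Aj h Q β γ δ.val (-δ).val t b t' b' then F δ t' b' else 0) =
      Out F t b + In F t + ZZ h Q β γ F t := by
  have h4 : 4 < M := by omega
  rw [← sum_out h4 F t b, ← sum_in h4 F t]
  unfold ZZ
  rw [← Finset.sum_add_distrib, ← Finset.sum_add_distrib]
  refine Finset.sum_congr rfl (fun δ _ => ?_)
  rw [← Finset.sum_add_distrib, ← Finset.sum_add_distrib]
  refine Finset.sum_congr rfl (fun t' _ => ?_)
  have hv := val_rel hM δ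
  have key : ∀ b' : Bool, (if Aj h Q β γ δ.val (-δ).val t b t' b' then F δ t' b' else 0) =
      (if t' = b ∧ S t b δ.val then F δ t' b' else 0) +
      (if t = b' ∧ S t' b' (-δ).val then F δ t' b' else 0) +
      (if Zr h Q β γ δ.val t t' then F δ t' b' else 0) := by
    intro b'
    unfold Aj
    refine ite_or3 ?_ ?_ ?_ _
    · rintro ⟨⟨_, h1⟩, ⟨_, h2⟩⟩
      have := S_bd h1; have := S_bd h2; omega
    · rintro ⟨⟨_, h1⟩, h2⟩
      have := S_bd h1; have := Zr_bd hQ h2; omega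
    · rintro ⟨⟨_, h1⟩, h2⟩
      have := S_bd h1; have := Zr_bd hQ h2; omega
  rw [Finset.sum_congr rfl (fun b' _ => key b'), Finset.sum_add_distrib, Finset.sum_add_distrib]
  congr 1
  rw [Fintype.sum_bool]
  split_ifs <;> simp

theorem sum_Gr {M h Q : ℕ} [NeZero M] (β γ : Bool) (hM : M = 2 * h) (hQ : Q + 6 ≤ h)
    (y : W M → ℝ) (k : ZMod M) (t b : Bool)
    [DecidablePred (fun u : W M => (Gr M h Q β γ hM hQ).Adj (k, t, b) u)] :
    ∑ u : W M, (if (Gr M h Q β γ hM hQ).Adj (k, t, b) u then y u else 0) =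
      Out (fun δ t' b' => y (k + δ, t', b')) t b + In (fun δ t' b' => y (k + δ, t', b')) t +
        ZZ h Q β γ (fun δ t' b' => y (k + δ, t', b')) t := by
  rw [← sum_Aj β γ hM hQ (fun δ t' b' => y (k + δ, t', b')) t b]
  rw [Fintype.sum_prod_type]
  rw [← Equiv.sum_comp (Equiv.addLeft k)]
  refine Finset.sum_congr rfl (fun δ _ => ?_)
  rw [Fintype.sum_prod_type]
  refine Finset.sum_congr rfl (fun t' _ => ?_)
  refine Finset.sum_congr rfl (fun b' _ => ?_)
  have e : (Gr M h Q β γ hM hQ).Adj (k, t, b) ((Equiv.addLeft k) δ, t', b') ↔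
      Aj h Q β γ δ.val (-δ).val t b t' b' := by
    show Aj h Q β γ (k + δ - k).val (k - (k + δ)).val t b t' b' ↔ _
    rw [add_sub_cancel_left, sub_add_cancel_left]
  by_cases hh : Aj h Q β γ δ.val (-δ).val t b t' b'
  · rw [if_pos (e.2 hh), if_pos hh]; rfl
  · rw [if_neg (fun h' => hh (e.1 h')), if_neg hh]

end Pool.Agent.TH903.Nut
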