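import Mathlib
import Pool.Agent.TH903.Nut.Family

/-!
# The family consists of nut graphs
-/

set_option autoImplicit false

namespace Pool.Agent.TH903.Nut

open Finset

theorem sum_zmod_val {M : ℕ} [NeZero M] (g : ℕ → ℝ) :
    ∑ δ : ZMod M, g δ.val = ∑ d ∈ range M, g d := by
  refine Finset.sum_nbij' (fun δ => δ.val) (fun d => (d : ZMod M)) ?_ ?_ ?_ ?_ ?_
  · intro δ _; exact Finset.mem_range.2 (ZMod.val_lt δ)
  · intro d _; exact Finset.mem_univ _
  · intro δ _; exact ZMod.natCast_zmod_val δ
  · intro d hd; exact ZMod.val_cast_of_lt (Finset.mem_range.1 hd)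
  · intro δ _; rfl

theorem cntI (n a b : ℕ) (hb : b < n) :
    ∑ d ∈ range n, (if a ≤ d ∧ d ≤ b then (1 : ℝ) else 0) = ((b + 1 - a : ℕ) : ℝ) := by
  rw [Finset.sum_boole]
  have : (range n).filter (fun d => a ≤ d ∧ d ≤ b) = Icc a b := by
    ext d; simp only [Finset.mem_filter, Finset.mem_range, Finset.mem_Icc]; omega
  rw [this, Nat.card_Icc]

theorem cnt_pt {h Q : ℕ} (β γ t : Bool) (hQ : Q + 6 ≤ h) (d : ℕ) :
    (if Zr h Q β γ d t true then (1 : ℝ) else 0) + (if Zr h Q β γ d t false then (1 : ℝ) else 0) =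
      2 * (if 6 ≤ d ∧ d ≤ 5 + Q then (1 : ℝ) else 0) +
      2 * (if 2 * h - 5 - Q ≤ d ∧ d ≤ 2 * h - 6 then (1 : ℝ) else 0) +
      (if β = true then (if d = 5 then (1 : ℝ) else 0) + (if d = 2 * h - 5 then (1 : ℝ) else 0)
        else 0) +
      (if γ = true then (if d = 0 then (1 : ℝ) else 0) else 0) +
      (if t = true then (if d = h then (1 : ℝ) else 0) else 0) := by
  cases β <;> cases γ <;> cases t <;> simp only [Zr, reduceCtorEq, false_and, true_and, or_false,
    false_or, ne_eq, not_true_eq_false, not_false_eq_true, if_true, if_false, and_false, and_self] <;>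
    split_ifs <;> first | (exfalso; omega) | norm_num

theorem cnt {h Q : ℕ} (β γ t : Bool) (hQ : Q + 6 ≤ h) :
    ∑ d ∈ range (2 * h), ((if Zr h Q β γ d t true then (1 : ℝ) else 0) +
      (if Zr h Q β γ d t false then (1 : ℝ) else 0)) =
      4 * (Q : ℝ) + 2 * (β.toNat : ℝ) + (γ.toNat : ℝ) + (t.toNat : ℝ) := by
  rw [Finset.sum_congr rfl (fun d _ => cnt_pt β γ t hQ d)]
  rw [Finset.sum_add_distrib, Finset.sum_add_distrib, Finset.sum_add_distrib,
    Finset.sum_add_distrib, ← Finset.mul_sum, ← Finset.mul_sum, cntI _ _ _ (by omega),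
    cntI _ _ _ (by omega)]
  have e1 : ∑ d ∈ range (2 * h), (if β = true then (if d = 5 then (1 : ℝ) else 0) +
      (if d = 2 * h - 5 then (1 : ℝ) else 0) else 0) = 2 * (β.toNat : ℝ) := by
    cases β
    · simp
    · simp only [if_true]
      rw [Finset.sum_add_distrib, Finset.sum_ite_eq', Finset.sum_ite_eq', if_pos, if_pos]
      · norm_num
      · exact Finset.mem_range.2 (by omega)
      · exact Finset.mem_range.2 (by omega)
  have e2 : ∑ d ∈ range (2 * h), (if γ = true then (if d = 0 then (1 : ℝ) else 0) else 0) =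
      (γ.toNat : ℝ) := by
    cases γ
    · simp
    · simp only [if_true]
      rw [Finset.sum_ite_eq', if_pos]
      · norm_num
      · exact Finset.mem_range.2 (by omega)
  have e3 : ∑ d ∈ range (2 * h), (if t = true then (if d = h then (1 : ℝ) else 0) else 0) =
      (t.toNat : ℝ) := by
    cases t
    · simp
    · simp only [if_true]
      rw [Finset.sum_ite_eq', if_pos]
      · norm_num
      · exact Finset.mem_range.2 (by omega)
  rw [e1, e2, e3]
  have f1 : 5 + Q + 1 - 6 = Q := by omega
  have f2 : 2 * h - 6 + 1 - (2 * h - 5 - Q) = Q := by omega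
  rw [f1, f2]
  ring

theorem ZZ_one {M h Q : ℕ} [NeZero M] (β γ t : Bool) (hM : M = 2 * h) (hQ : Q + 6 ≤ h) :
    ZZ (M := M) h Q β γ (fun _ _ _ => 1) t =
      2 * (4 * (Q : ℝ) + 2 * (β.toNat : ℝ) + (γ.toNat : ℝ) + (t.toNat : ℝ)) := by
  unfold ZZ
  rw [← cnt β γ t hQ, Finset.mul_sum]
  subst hM
  rw [← sum_zmod_val (M := 2 * h) (fun d => 2 * ((if Zr h Q β γ d t true then (1 : ℝ) else 0) +
      (if Zr h Q β γ d t false then (1 : ℝ) else 0)))]
  refine Finset.sum_congr rfl (fun δ _ => ?_)
  rw [Fintype.sum_bool]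
  split_ifs <;> norm_num

/-- the degree -/
theorem isReg_Gr {M h Q : ℕ} [NeZero M] (β γ : Bool) (hM : M = 2 * h) (hQ : Q + 6 ≤ h) :
    IsReg (Gr M h Q β γ hM hQ) (7 + 2 * (4 * Q + 2 * β.toNat + γ.toNat)) := by
  classical
  unfold IsReg
  rintro ⟨k, t, b⟩
  have h1 := sum_Gr β γ hM hQ (fun _ => (1 : ℝ)) k t b
  rw [Finset.sum_boole] at h1
  have h2 : ((univ.filter (fun u : W M => (Gr M h Q β γ hM hQ).Adj (k, t, b) u)).card : ℝ) =
      ((7 + 2 * (4 * Q + 2 * β.toNat + γ.toNat) : ℕ) : ℝ) := by
    rw [h1]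
    have h3 := ZZ_one (M := M) β γ t hM hQ
    rw [h3]
    cases t <;> cases b <;> simp [Out, In] <;> ring
  exact_mod_cast h2

/-- the kernel vector -/
def x0 {M : ℕ} (v : W M) : ℝ :=
  (if v.2.2 = true then 1 else -1) * (if v.2.1 = true then -2 else 1)

theorem x0_ne {M : ℕ} (v : W M) : x0 v ≠ 0 := by
  unfold x0; split_ifs <;> norm_num

theorem x0_ker {M h Q : ℕ} [NeZero M] (β γ : Bool) (hM : M = 2 * h) (hQ : Q + 6 ≤ h) :
    InKer (Gr M h Q β γ hM hQ) x0 := by
  classical
  unfold InKer
  rintro ⟨k, t, b⟩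
  rw [sum_Gr β γ hM hQ x0 k t b]
  have hz : ZZ h Q β γ (fun δ t' b' => x0 (k + δ, t', b')) t = 0 := by
    unfold ZZ
    refine Finset.sum_eq_zero (fun δ _ => Finset.sum_eq_zero (fun t' _ => ?_))
    split_ifs
    · cases t' <;> simp [x0]
    · rfl
  rw [hz]
  cases t <;> cases b <;> simp [Out, In, x0] <;> norm_num

theorem const_of_shift {M : ℕ} [NeZero M] (f : ZMod M → ℝ) (hf : ∀ k, f (k + 1) = f k) (k : ZMod M) :
    f k = f 0 := by
  have h1 : ∀ n : ℕ, f (n : ZMod M) = f 0 := by
    intro n
    induction n with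
    | zero => simp
    | succ n ih => rw [Nat.cast_succ, hf, ih]
  rw [← ZMod.natCast_zmod_val k]
  exact h1 _

theorem sum_ker_zero {V : Type} [Fintype V] (G : SimpleGraph V) {ρ : ℕ} (hρ : ρ ≠ 0)
    (hr : IsReg G ρ) (y : V → ℝ) (hy : InKer G y) : ∑ v, y v = 0 := by
  classical
  unfold IsReg at hr
  unfold InKer at hy
  have h1 : ∑ v : V, ∑ u : V, (if G.Adj v u then y u else 0) = 0 := by
    refine Finset.sum_eq_zero (fun v _ => ?_)
    convert hy v
  rw [Finset.sum_comm] at h1
  have h2 : ∀ u : V, ∑ v : V, (if G.Adj v u then y u else 0) = (ρ : ℝ) * y u := by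
    intro u
    have h3 : ∀ v : V, (if G.Adj v u then y u else 0) = (if G.Adj u v then (1 : ℝ) else 0) * y u := by
      intro v
      by_cases h : G.Adj u v
      · rw [if_pos h, if_pos h.symm, one_mul]
      · rw [if_neg h, if_neg (fun h' => h h'.symm), zero_mul]
    rw [Finset.sum_congr rfl (fun v _ => h3 v), ← Finset.sum_mul, Finset.sum_boole]
    congr 2
    convert hr u
  rw [Finset.sum_congr rfl (fun u _ => h2 u), ← Finset.mul_sum] at h1
  rcases mul_eq_zero.1 h1 with h4 | h4
  · exact absurd (by exact_mod_cast h4) hρ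
  · exact h4

theorem uniq {M h Q : ℕ} [NeZero M] (β γ : Bool) (hM : M = 2 * h) (hQ : Q + 6 ≤ h)
    (y : W M → ℝ) (hy : InKer (Gr M h Q β γ hM hQ) y) : ∃ c : ℝ, ∀ v, y v = c * x0 v := by
  classical
  have hsum := sum_ker_zero _ (by omega) (isReg_Gr β γ hM hQ) y hy
  have hE : ∀ (k : ZMod M) (t b : Bool),
      Out (fun δ t' b' => y (k + δ, t', b')) t b + In (fun δ t' b' => y (k + δ, t', b')) t +
        ZZ h Q β γ (fun δ t' b' => y (k + δ, t', b')) t = 0 := by
    intro k t b
    rw [← sum_Gr β γ hM hQ y k t b]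
    unfold InKer at hy
    convert hy (k, t, b)
  -- the sums over the two copies
  set s : ZMod M → Bool → ℝ := fun k t => y (k, t, true) + y (k, t, false) with hs
  have hA : ∀ k : ZMod M, s k true = s k false := by
    intro k
    have h1 := hE (k - 1) true true
    have h2 := hE (k - 1) true false
    simp only [Out, if_true] at h1 h2
    rw [sub_add_cancel] at h1 h2
    simp only [hs]
    linarith
  have hB : ∀ k : ZMod M, s (k + 1) true = s k true := by
    intro k
    have h1 := hE (k - 3) false true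
    have h2 := hE (k - 3) false false
    simp only [Out, Bool.false_eq_true, if_false, if_true] at h1 h2
    have e3 : k - 3 + 3 = k := by ring
    have e4 : k - 3 + 4 = k + 1 := by ring
    rw [e3] at h1
    rw [e4] at h2
    have h3 := hA (k - 3 + 2)
    have h4 := hA (k + 1)
    simp only [hs] at h3 h4 ⊢
    linarith
  have hC : ∀ (k : ZMod M) (t : Bool), s k t = s 0 true := by
    intro k t
    have h1 := const_of_shift (fun k => s k true) hB k
    cases t
    · rw [← hA k]; exact h1
    · exact h1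
  have hs0 : s 0 true = 0 := by
    rw [Fintype.sum_prod_type] at hsum
    have h1 : ∀ k : ZMod M, ∑ p : Bool × Bool, y (k, p) = 2 * s 0 true := by
      intro k
      rw [Fintype.sum_prod_type, Fintype.sum_bool, Fintype.sum_bool, Fintype.sum_bool]
      have h2 := hC k true
      have h3 := hC k false
      simp only [hs] at h2 h3 ⊢
      linarith
    rw [Finset.sum_congr rfl (fun k _ => h1 k), Finset.sum_const, Finset.card_univ, ZMod.card,
      nsmul_eq_mul] at hsum
    have hM0 : (M : ℝ) ≠ 0 := by exact_mod_cast NeZero.ne M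
    rcases mul_eq_zero.1 hsum with h4 | h4
    · exact absurd h4 hM0
    · linarith
  have hD : ∀ (k : ZMod M) (t : Bool), y (k, t, true) + y (k, t, false) = 0 := by
    intro k t
    have := hC k t
    rw [hs0] at this
    exact this
  have hN : ∀ (k : ZMod M) (t : Bool), y (k, t, false) = - y (k, t, true) := by
    intro k t
    have := hD k t
    linarith
  have hZ0 : ∀ (k : ZMod M) (t : Bool), ZZ h Q β γ (fun δ t' b' => y (k + δ, t', b')) t = 0 := by
    intro k t
    unfold ZZ
    refine Finset.sum_eq_zero (fun δ _ => Finset.sum_eq_zero (fun t' _ => ?_))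
    split_ifs
    · exact hD _ _
    · rfl
  have hI : ∀ (k : ZMod M) (t : Bool), In (fun δ t' b' => y (k + δ, t', b')) t = 0 := by
    intro k t
    have h1 := hE k t true
    rw [hZ0 k t] at h1
    have h2 : Out (fun δ t' b' => y (k + δ, t', b')) t true = 0 := by
      cases t
      · simp only [Out, Bool.false_eq_true, if_false, if_true]
        rw [hD, hD]; norm_num
      · simp only [Out, if_true]
        rw [hD]
    rw [h2] at h1
    linarith
  have hT : ∀ k : ZMod M,
      y (k - 1, true, true) + y (k - 2, false, true) + y (k - 3, false, true) = 0 := by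
    intro k
    have h1 := hI k true
    simp only [In, if_true] at h1
    simpa only [← sub_eq_add_neg] using h1
  have hF : ∀ k : ZMod M,
      y (k - 1, true, true) + y (k - 2, false, true) + y (k - 4, false, true) = 0 := by
    intro k
    have h1 := hI k false
    simp only [In, Bool.false_eq_true, if_false] at h1
    simp only [← sub_eq_add_neg] at h1
    rw [hN, hN, hN] at h1
    linarith
  have hS : ∀ k : ZMod M, y (k + 1, false, true) = y (k, false, true) := by
    intro k
    have h1 := hT (k + 4)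
    have h2 := hF (k + 4)
    have e3 : k + 4 - 3 = k + 1 := by ring
    have e4 : k + 4 - 4 = k := by ring
    rw [e3] at h1
    rw [e4] at h2
    linarith
  have hK : ∀ k : ZMod M, y (k, false, true) = y (0, false, true) :=
    fun k => const_of_shift (fun k => y (k, false, true)) hS k
  refine ⟨y (0, false, true), ?_⟩
  have hTT : ∀ k : ZMod M, y (k, true, true) = -2 * y (0, false, true) := by
    intro k
    have h1 := hT (k + 1)
    rw [add_sub_cancel_right, hK (k + 1 - 2), hK (k + 1 - 3)] at h1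
    linarith
  rintro ⟨k, t, b⟩
  cases t <;> cases b
  · rw [hN, hK]; simp [x0]
  · rw [hK]; simp [x0]
  · rw [hN, hTT]; simp [x0]; ring
  · rw [hTT]; simp [x0]; ring

theorem isNut_Gr {M h Q : ℕ} [NeZero M] (β γ : Bool) (hM : M = 2 * h) (hQ : Q + 6 ≤ h) :
    IsNut (Gr M h Q β γ hM hQ) := by
  refine ⟨?_, x0, x0_ne, x0_ker β γ hM hQ, uniq β γ hM hQ⟩
  simp only [Fintype.card_prod, ZMod.card, Fintype.card_bool]
  omega

theorem card_W {M : ℕ} [NeZero M] : Fintype.card (W M) = 4 * M := by
  simp only [Fintype.card_prod, ZMod.card, Fintype.card_bool]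
  ring

end Pool.Agent.TH903.Nut
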