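import Mathlib
import Pool.Agent.TH903.Nut.Defs
import Pool.Agent.TH903.Nut.Family

/-!
# A family of nut graphs of odd order: definitions
Degree `8 i + 8`, order `2 m + 3`, for `m ≥ 8 i + 8`.
-/

set_option autoImplicit false

namespace Pool.Agent.TH903.Nut.Od

open Finset

/-- targets of the three special vertices (positions) -/
def T1 (i v : ℕ) : Prop := 1 ≤ v ∧ v ≤ 4 * i + 4 ∧ v ≠ 3 * i + 3
def T2 (i v : ℕ) : Prop := (1 ≤ v ∧ v ≤ 2 * i + 2) ∨ (4 * i + 5 ≤ v ∧ v ≤ 6 * i + 5)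
def T3 (i m v : ℕ) : Prop :=
  (2 * i + 3 ≤ v ∧ v ≤ 6 * i + 5 ∧ v ≠ 3 * i + 3) ∨ v = m - 2 ∨ v = m - 1

/-- the circulant part of the joins, `d` a residue below `m` -/
def Dd (i m d : ℕ) : Prop :=
  (2 * i + 3 ≤ d ∧ d ≤ 4 * i + 3) ∨ (m ≤ d + (4 * i + 3) ∧ d + (2 * i + 3) ≤ m)

/-- the removed matching -/
def Mt (i v w : ℕ) : Prop :=
  (1 ≤ v ∧ v ≤ 3 * i + 2 ∧ w = v + (3 * i + 3)) ∨ (1 ≤ w ∧ w ≤ 3 * i + 2 ∧ v = w + (3 * i + 3))

/-- the shift -/
def sh (b : Bool) : ℕ := if b = true then 1 else 2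

instance (i v : ℕ) : Decidable (T1 i v) := by unfold T1; infer_instance
instance (i v : ℕ) : Decidable (T2 i v) := by unfold T2; infer_instance
instance (i m v : ℕ) : Decidable (T3 i m v) := by unfold T3; infer_instance
instance (i m d : ℕ) : Decidable (Dd i m d) := by unfold Dd; infer_instance
instance (i v w : ℕ) : Decidable (Mt i v w) := by unfold Mt; infer_instance

/-- joins between the pairs `k` and `k + δ` -/
def HH (i : ℕ) {m : ℕ} (k δ : ZMod m) : Prop := Dd i m δ.val ∧ ¬ Mt i k.val (k + δ).val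

instance (i : ℕ) {m : ℕ} (k δ : ZMod m) : Decidable (HH i k δ) := by unfold HH; infer_instance

/-- adjacency of `(k, b)` and `(k + δ, b')` -/
def PA (i : ℕ) {m : ℕ} (k : ZMod m) (b : Bool) (δ : ZMod m) (b' : Bool) : Prop :=
  (k.val ≠ m - 2 ∧ δ.val = sh b) ∨ ((k + δ).val ≠ m - 2 ∧ (-δ).val = sh b') ∨ HH i k δ

instance (i : ℕ) {m : ℕ} (k : ZMod m) (b : Bool) (δ : ZMod m) (b' : Bool) :
    Decidable (PA i k b δ b') := by unfold PA; infer_instance

/-- adjacency of `(k, b)` and the special vertex `u` -/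
def PC (i : ℕ) {m : ℕ} (k : ZMod m) (b : Bool) (u : Fin 3) : Prop :=
  (u = 0 ∧ (T1 i k.val ∨ (k.val = 0 ∧ b = true) ∨ (k.val = m - 2 ∧ b = false))) ∨
  (u = 1 ∧ (T2 i k.val ∨ (k.val = 0 ∧ b = false) ∨ (k.val = m - 2 ∧ b = true))) ∨
  (u = 2 ∧ T3 i m k.val)

instance (i : ℕ) {m : ℕ} (k : ZMod m) (b : Bool) (u : Fin 3) : Decidable (PC i k b u) := by
  unfold PC; infer_instance

/-- the vertices -/
abbrev V (m : ℕ) : Type := (ZMod m × Bool) ⊕ Fin 3

/-- adjacency -/
def AdjV (i m : ℕ) : V m → V m → Prop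
  | .inl p, .inl q => PA i p.1 p.2 (q.1 - p.1) q.2
  | .inl p, .inr u => PC i p.1 p.2 u
  | .inr u, .inl p => PC i p.1 p.2 u
  | .inr _, .inr _ => False

theorem Mt_symm {i v w : ℕ} (h : Mt i v w) : Mt i w v := by
  unfold Mt at *; omega

theorem val_rel' {m : ℕ} [NeZero m] (δ : ZMod m) :
    (δ.val = 0 ∧ (-δ).val = 0) ∨ δ.val + (-δ).val = m := by
  rw [ZMod.neg_val]
  split_ifs with h0
  · left; subst h0; simp
  · right
    have := ZMod.val_lt δ
    omega

theorem Dd_neg {i m : ℕ} [NeZero m] (hm : 8 * i + 8 ≤ m) {δ : ZMod m} (h : Dd i m δ.val) :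
    Dd i m (-δ).val := by
  have h1 := val_rel' δ
  have h2 := ZMod.val_lt δ
  unfold Dd at *
  omega

theorem Dd_bd {i m d : ℕ} (hm : 8 * i + 8 ≤ m) (h : Dd i m d) : 3 ≤ d ∧ d + 3 ≤ m := by
  unfold Dd at h; omega

/-- the graph -/
def Gm (i m : ℕ) [NeZero m] (hm : 8 * i + 8 ≤ m) : SimpleGraph (V m) where
  Adj := AdjV i m
  symm := ⟨by
    rintro (⟨k, b⟩ | u) (⟨k', b'⟩ | u') h
    · simp only [AdjV, PA] at h ⊢
      have e1 : k + (k' - k) = k' := by ring
      have e2 : k' + (k - k') = k := by ring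
      have e3 : -(k' - k) = k - k' := by ring
      have e4 : -(k - k') = k' - k := by ring
      rw [e1, e3] at h
      rw [e2, e4]
      rcases h with h1 | h1 | h1
      · right; left; exact h1
      · left; exact h1
      · right; right
        unfold HH at h1 ⊢
        rw [e1] at h1
        rw [e2]
        refine ⟨?_, fun h2 => h1.2 (Mt_symm h2)⟩
        have := Dd_neg hm h1.1
        rwa [e3] at this
    · exact h
    · exact h
    · exact h⟩
  loopless := ⟨by
    rintro (⟨k, b⟩ | u) h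
    · simp only [AdjV, PA, sub_self, neg_zero, ZMod.val_zero] at h
      have hs : sh b ≠ 0 := by unfold sh; split_ifs <;> omega
      rcases h with h1 | h1 | h1
      · exact hs h1.2.symm
      · exact hs h1.2.symm
      · have := Dd_bd hm h1.1
        rw [ZMod.val_zero] at this
        omega
    · exact h⟩

/-- the positions of the pairs with two special neighbours -/
def Tg (i v : ℕ) : Prop := 1 ≤ v ∧ v ≤ 6 * i + 5 ∧ v ≠ 3 * i + 3

instance (i v : ℕ) : Decidable (Tg i v) := by unfold Tg; infer_instance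

/-- partial sums -/
def FF (i p : ℕ) : ℤ :=
  if p ≤ 2 * i + 2 then 2 * p
  else if p ≤ 3 * i + 2 then 6 * i + 6 - p
  else if p ≤ 6 * i + 5 then 6 * i + 7 - p
  else 2

/-- the kernel vector on the pairs -/
def aa (i m v : ℕ) : ℤ :=
  if v = m - 1 then -1
  else if v = m - 2 then -3
  else if v = m - 3 then -2
  else -1 - FF i (v + 1)

end Pool.Agent.TH903.Nut.Od
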