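import Mathlib
import Pool.Agent.TH903.Nut.OddDefs
import Pool.Agent.TH903.Nut.Family2

/-! NUT-ODD-C: three counts over `ZMod m` (helper503, for helper903). -/

set_option autoImplicit false

namespace Pool.Agent.TH903.Nut.Od

open Finset

theorem sum_T1 (i m : ℕ) [NeZero m] (hm : 8 * i + 8 ≤ m) :
    ∑ k : ZMod m, (if T1 i k.val then (1 : ℝ) else 0) = 4 * (i : ℝ) + 3 := by
  rw [sum_zmod_val (M := m) (fun v => if T1 i v then (1 : ℝ) else 0)]
  have e : ∀ d ∈ range m, (if T1 i d then (1 : ℝ) else 0) =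
      (if 1 ≤ d ∧ d ≤ 4 * i + 4 then (1 : ℝ) else 0) - (if d = 3 * i + 3 then (1 : ℝ) else 0) := by
    intro d _
    by_cases h1 : 1 ≤ d ∧ d ≤ 4 * i + 4 <;> by_cases h2 : d = 3 * i + 3
    · rw [if_neg (by unfold T1; omega), if_pos h1, if_pos h2]; norm_num
    · rw [if_pos (by unfold T1; omega), if_pos h1, if_neg h2]; norm_num
    · exfalso; omega
    · rw [if_neg (by unfold T1; omega), if_neg h1, if_neg h2]; norm_num
  rw [Finset.sum_congr rfl e, Finset.sum_sub_distrib, cntI _ _ _ (by omega), Finset.sum_ite_eq',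
    if_pos (Finset.mem_range.2 (by omega))]
  push_cast
  ring

theorem sum_T2 (i m : ℕ) [NeZero m] (hm : 8 * i + 8 ≤ m) :
    ∑ k : ZMod m, (if T2 i k.val then (1 : ℝ) else 0) = 4 * (i : ℝ) + 3 := by
  rw [sum_zmod_val (M := m) (fun v => if T2 i v then (1 : ℝ) else 0)]
  have e : ∀ d ∈ range m, (if T2 i d then (1 : ℝ) else 0) =
      (if 1 ≤ d ∧ d ≤ 2 * i + 2 then (1 : ℝ) else 0) +
        (if 4 * i + 5 ≤ d ∧ d ≤ 6 * i + 5 then (1 : ℝ) else 0) := by
    intro d _
    by_cases h1 : 1 ≤ d ∧ d ≤ 2 * i + 2 <;> by_cases h2 : 4 * i + 5 ≤ d ∧ d ≤ 6 * i + 5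
    · exfalso; omega
    · rw [if_pos (by unfold T2; omega), if_pos h1, if_neg h2]; norm_num
    · rw [if_pos (by unfold T2; omega), if_neg h1, if_pos h2]; norm_num
    · rw [if_neg (by unfold T2; omega), if_neg h1, if_neg h2]; norm_num
  rw [Finset.sum_congr rfl e, Finset.sum_add_distrib, cntI _ _ _ (by omega), cntI _ _ _ (by omega)]
  have f1 : 2 * i + 2 + 1 - 1 = 2 * i + 2 := by omega
  have f2 : 6 * i + 5 + 1 - (4 * i + 5) = 2 * i + 1 := by omega
  rw [f1, f2]
  push_cast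
  ring

theorem sum_T3 (i m : ℕ) [NeZero m] (hm : 8 * i + 8 ≤ m) :
    ∑ k : ZMod m, (if T3 i m k.val then (1 : ℝ) else 0) = 4 * (i : ℝ) + 4 := by
  rw [sum_zmod_val (M := m) (fun v => if T3 i m v then (1 : ℝ) else 0)]
  have e : ∀ d ∈ range m, (if T3 i m d then (1 : ℝ) else 0) =
      (if 2 * i + 3 ≤ d ∧ d ≤ 6 * i + 5 then (1 : ℝ) else 0) - (if d = 3 * i + 3 then (1 : ℝ) else 0)
        + (if d = m - 2 then (1 : ℝ) else 0) + (if d = m - 1 then (1 : ℝ) else 0) := by
    intro d _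
    by_cases h1 : 2 * i + 3 ≤ d ∧ d ≤ 6 * i + 5 <;> by_cases h2 : d = 3 * i + 3 <;>
      by_cases h3 : d = m - 2 <;> by_cases h4 : d = m - 1 <;>
      first
      | (exfalso; omega)
      | (rw [if_neg (by unfold T3; omega)]
         first | rw [if_pos h1] | rw [if_neg h1]
         first | rw [if_pos h2] | rw [if_neg h2]
         first | rw [if_pos h3] | rw [if_neg h3]
         first | rw [if_pos h4] | rw [if_neg h4]
         norm_num)
      | (rw [if_pos (by unfold T3; omega)]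
         first | rw [if_pos h1] | rw [if_neg h1]
         first | rw [if_pos h2] | rw [if_neg h2]
         first | rw [if_pos h3] | rw [if_neg h3]
         first | rw [if_pos h4] | rw [if_neg h4]
         norm_num)
  rw [Finset.sum_congr rfl e, Finset.sum_add_distrib, Finset.sum_add_distrib,
    Finset.sum_sub_distrib, cntI _ _ _ (by omega), Finset.sum_ite_eq', Finset.sum_ite_eq',
    Finset.sum_ite_eq', if_pos (Finset.mem_range.2 (by omega)),
    if_pos (Finset.mem_range.2 (by omega)), if_pos (Finset.mem_range.2 (by omega))]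
  have f1 : 6 * i + 5 + 1 - (2 * i + 3) = 4 * i + 3 := by omega
  rw [f1]
  push_cast
  ring

end Pool.Agent.TH903.Nut.Od
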