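import Mathlib
import Pool.Agent.TH903.Nut.OddDefs
import Pool.Agent.TH903.Nut.Family2

/-!
# Nut graphs of odd order: degrees in the circulant minus the matching
-/

set_option autoImplicit false

namespace Pool.Agent.TH903.Nut.Od

open Finset

theorem Mt_Dd (i m : ℕ) [NeZero m] (hm : 8 * i + 8 ≤ m) (k δ : ZMod m)
    (h : Mt i k.val (k + δ).val) : Dd i m δ.val := by
  have h1 := ZMod.val_lt k
  have h2 := ZMod.val_lt δ
  rw [ZMod.val_add] at h
  rcases Nat.lt_or_ge (k.val + δ.val) m with h3 | h3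
  · rw [Nat.mod_eq_of_lt h3] at h
    unfold Mt at h
    unfold Dd
    omega
  · have h4 : (k.val + δ.val) % m = k.val + δ.val - m := by
      rw [Nat.mod_eq_sub_mod h3, Nat.mod_eq_of_lt (by omega)]
    rw [h4] at h
    unfold Mt at h
    unfold Dd
    omega

theorem sum_Dd (i m : ℕ) [NeZero m] (hm : 8 * i + 8 ≤ m) :
    ∑ δ : ZMod m, (if Dd i m δ.val then (1 : ℝ) else 0) = 4 * (i : ℝ) + 2 := by
  rw [sum_zmod_val (fun d => if Dd i m d then (1 : ℝ) else 0)]
  have e1 : ∀ d ∈ range m, (if Dd i m d then (1 : ℝ) else 0) =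
      (if 2 * i + 3 ≤ d ∧ d ≤ 4 * i + 3 then (1 : ℝ) else 0) +
        (if m - (4 * i + 3) ≤ d ∧ d ≤ m - (2 * i + 3) then (1 : ℝ) else 0) := by
    intro d hd
    have hd' := mem_range.1 hd
    unfold Dd
    by_cases h1 : 2 * i + 3 ≤ d ∧ d ≤ 4 * i + 3
    · rw [if_pos (Or.inl h1), if_pos h1, if_neg (by omega)]
      norm_num
    · by_cases h2 : m - (4 * i + 3) ≤ d ∧ d ≤ m - (2 * i + 3)
      · rw [if_pos (Or.inr (by omega)), if_neg h1, if_pos h2]
        norm_num
      · rw [if_neg (by omega), if_neg h1, if_neg h2]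
        norm_num
  rw [sum_congr rfl e1, sum_add_distrib, cntI _ _ _ (by omega), cntI _ _ _ (by omega)]
  have e2 : 4 * i + 3 + 1 - (2 * i + 3) = 2 * i + 1 := by omega
  have e3 : m - (2 * i + 3) + 1 - (m - (4 * i + 3)) = 2 * i + 1 := by omega
  rw [e2, e3]
  push_cast
  ring

theorem sum_Mt (i m : ℕ) [NeZero m] (hm : 8 * i + 8 ≤ m) (k : ZMod m) :
    ∑ δ : ZMod m, (if Mt i k.val (k + δ).val then (1 : ℝ) else 0) =
      if Tg i k.val then 1 else 0 := by
  have h0 : ∑ δ : ZMod m, (if Mt i k.val (k + δ).val then (1 : ℝ) else 0) =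
      ∑ w : ZMod m, (if Mt i k.val w.val then (1 : ℝ) else 0) :=
    Fintype.sum_equiv (Equiv.addLeft k) _ _ (fun δ => rfl)
  rw [h0, sum_zmod_val (fun w => if Mt i k.val w then (1 : ℝ) else 0)]
  have hk := ZMod.val_lt k
  by_cases hT : Tg i k.val
  · rw [if_pos hT]
    have hT' := hT
    unfold Tg at hT'
    obtain ⟨w0, hw0, hw⟩ : ∃ w0, w0 < m ∧ ∀ w, Mt i k.val w ↔ w = w0 := by
      by_cases h1 : k.val ≤ 3 * i + 2
      · refine ⟨k.val + (3 * i + 3), by omega, fun w => ?_⟩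
        unfold Mt
        omega
      · refine ⟨k.val - (3 * i + 3), by omega, fun w => ?_⟩
        unfold Mt
        omega
    simp only [hw]
    rw [sum_ite_eq' (range m) w0 (fun _ => (1 : ℝ)), if_pos (mem_range.2 hw0)]
  · rw [if_neg hT]
    refine sum_eq_zero fun w _ => ?_
    rw [if_neg]
    intro h
    apply hT
    unfold Mt at h
    unfold Tg
    omega

theorem sum_HH (i m : ℕ) [NeZero m] (hm : 8 * i + 8 ≤ m) (k : ZMod m) :
    ∑ δ : ZMod m, (if HH i k δ then (1 : ℝ) else 0) = 4 * (i : ℝ) + 2 - (if Tg i k.val then 1 else 0) := by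
  rw [← sum_Dd i m hm, ← sum_Mt i m hm k, ← sum_sub_distrib]
  refine sum_congr rfl fun δ _ => ?_
  unfold HH
  by_cases h1 : Mt i k.val (k + δ).val
  · have h2 := Mt_Dd i m hm k δ h1
    rw [if_neg (fun h => h.2 h1), if_pos h2, if_pos h1]
    norm_num
  · rw [if_neg h1]
    by_cases h2 : Dd i m δ.val
    · rw [if_pos ⟨h2, h1⟩, if_pos h2]
      norm_num
    · rw [if_neg (fun h => h2 h.1), if_neg h2]
      norm_num

end Pool.Agent.TH903.Nut.Od
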