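import Mathlib
import Pool.Agent.TH903.Nut.OddDefs

/-!
# The kernel vector of the family of odd order
-/

set_option autoImplicit false

namespace Pool.Agent.TH903.Nut.Od

theorem aa_ne {i m v : ℕ} (_hm : 8 * i + 8 ≤ m) (_hv : v < m) : aa i m v ≠ 0 := by
  unfold aa FF
  split_ifs <;> omega

theorem FF_step {i m w : ℕ} (_hm : 8 * i + 8 ≤ m) (hw : w + 4 ≤ m) :
    FF i (w + 1) - FF i w = (if T1 i (w + 1) then (1 : ℤ) else 0) +
      (if T2 i (w + 1) then 1 else 0) - 2 * (if T3 i m (w + 1) then 1 else 0) := by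
  by_cases d1 : w + 1 ≤ 2 * i + 2
  · have t1 : T1 i (w + 1) := by unfold T1; omega
    have t2 : T2 i (w + 1) := by unfold T2; omega
    have t3 : ¬ T3 i m (w + 1) := by unfold T3; omega
    rw [if_pos t1, if_pos t2, if_neg t3]
    unfold FF
    rw [if_pos (by omega), if_pos (by omega)]
    push_cast; ring
  by_cases d2 : w + 1 ≤ 4 * i + 4 ∧ w + 1 ≠ 3 * i + 3
  · have t1 : T1 i (w + 1) := by unfold T1; omega
    have t2 : ¬ T2 i (w + 1) := by unfold T2; omega
    have t3 : T3 i m (w + 1) := by unfold T3; omega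
    rw [if_pos t1, if_neg t2, if_pos t3]
    unfold FF
    split_ifs <;> omega
  by_cases d3 : w + 1 = 3 * i + 3
  · have t1 : ¬ T1 i (w + 1) := by unfold T1; omega
    have t2 : ¬ T2 i (w + 1) := by unfold T2; omega
    have t3 : ¬ T3 i m (w + 1) := by unfold T3; omega
    rw [if_neg t1, if_neg t2, if_neg t3]
    unfold FF
    split_ifs <;> omega
  by_cases d4 : w + 1 ≤ 6 * i + 5
  · have t1 : ¬ T1 i (w + 1) := by unfold T1; omega
    have t2 : T2 i (w + 1) := by unfold T2; omega
    have t3 : T3 i m (w + 1) := by unfold T3; omega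
    rw [if_neg t1, if_pos t2, if_pos t3]
    unfold FF
    split_ifs <;> omega
  · have t1 : ¬ T1 i (w + 1) := by unfold T1; omega
    have t2 : ¬ T2 i (w + 1) := by unfold T2; omega
    have t3 : ¬ T3 i m (w + 1) := by unfold T3; omega
    rw [if_neg t1, if_neg t2, if_neg t3]
    unfold FF
    split_ifs <;> omega

theorem aa_gen {i m v : ℕ} (h : v + 4 ≤ m) : aa i m v = -1 - FF i (v + 1) := by
  unfold aa
  rw [if_neg (by omega), if_neg (by omega), if_neg (by omega)]

theorem FF_end {i m v : ℕ} (hm : 8 * i + 8 ≤ m) (h : m ≤ v + 3) : FF i v = 2 := by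
  unfold FF
  split_ifs <;> omega

theorem aa_eq {i m v : ℕ} (hm : 8 * i + 8 ≤ m) (hv : v < m) :
    (if v ≠ m - 1 then aa i m (if v = 0 then m - 1 else v - 1) else 0)
    - (if v ≠ 0 then aa i m (if v < 2 then v + m - 2 else v - 2) else 0)
    + ((if T1 i v then (1 : ℤ) else 0) + (if T2 i v then 1 else 0) - 2 * (if T3 i m v then 1 else 0))
    + (if v = 0 ∨ v = m - 2 then 1 else 0) = 0 := by
  by_cases c0 : v = 0
  · subst c0
    have t1 : ¬ T1 i 0 := by unfold T1; omega
    have t2 : ¬ T2 i 0 := by unfold T2; omega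
    have t3 : ¬ T3 i m 0 := by unfold T3; omega
    have g : (0 : ℕ) ≠ m - 1 := by omega
    simp only [t1, t2, t3, g, ne_eq, not_false_eq_true, not_true_eq_false, if_true, if_false, true_or]
    simp [aa]
  by_cases c1 : v = m - 1
  · have t1 : ¬ T1 i v := by unfold T1; omega
    have t2 : ¬ T2 i v := by unfold T2; omega
    have t3 : T3 i m v := by unfold T3; omega
    have g2 : ¬ (v = 0 ∨ v = m - 2) := by omega
    have g3 : ¬ v < 2 := by omega
    rw [if_neg (by simpa using c1), if_pos c0, if_neg g3, if_neg t1, if_neg t2, if_pos t3, if_neg g2]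
    unfold aa
    rw [if_neg (by omega), if_neg (by omega), if_pos (by omega)]
    norm_num
  rw [if_pos c1, if_neg c0, if_pos c0]
  by_cases c2 : v = m - 2
  · have t1 : ¬ T1 i v := by unfold T1; omega
    have t2 : ¬ T2 i v := by unfold T2; omega
    have t3 : T3 i m v := by unfold T3; omega
    rw [if_neg (show ¬ v < 2 by omega), if_neg t1, if_neg t2, if_pos t3, if_pos (Or.inr c2),
      aa_gen (show v - 2 + 4 ≤ m by omega), FF_end hm (by omega)]
    unfold aa
    rw [if_neg (by omega), if_neg (by omega), if_pos (by omega)]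
    norm_num
  obtain ⟨w, rfl⟩ : ∃ w, v = w + 1 := ⟨v - 1, by omega⟩
  have hw : w + 4 ≤ m := by omega
  have hs := FF_step hm hw
  rw [← hs, if_neg (show ¬ (w + 1 = 0 ∨ w + 1 = m - 2) by omega),
    show w + 1 - 1 = w by omega, aa_gen hw]
  by_cases c3 : w = 0
  · subst c3
    have e : aa i m (if 0 + 1 < 2 then 0 + 1 + m - 2 else 0 + 1 - 2) = -1 := by
      rw [if_pos (by omega)]
      unfold aa
      rw [if_pos (by omega)]
    rw [e]
    have e2 : FF i 0 = 0 := by unfold FF; simp
    rw [e2]; ring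
  · obtain ⟨z, rfl⟩ : ∃ z, w = z + 1 := ⟨w - 1, by omega⟩
    rw [if_neg (show ¬ z + 1 + 1 < 2 by omega), show z + 1 + 1 - 2 = z by omega,
      aa_gen (show z + 4 ≤ m by omega)]
    ring

end Pool.Agent.TH903.Nut.Od
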