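import Mathlib
import Pool.Agent.TH903.Nut.OddDefs
import Pool.Agent.TH903.Nut.OddH
import Pool.Agent.TH903.Nut.OddKer
import Pool.Agent.TH903.Nut.OddC
import Pool.Agent.TH903.Nut.Family2

/-!
# A family of nut graphs of odd order
-/

set_option autoImplicit false

namespace Pool.Agent.TH903.Nut.Od

open Finset

theorem val_add_nat {m : ℕ} [NeZero m] (k : ZMod m) {s : ℕ} (hs : s < m) :
    (k + (s : ZMod m)).val = if k.val + s < m then k.val + s else k.val + s - m := by
  have hk := ZMod.val_lt k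
  rw [ZMod.val_add, ZMod.val_natCast, Nat.mod_eq_of_lt hs]
  split_ifs with h
  · exact Nat.mod_eq_of_lt h
  · rw [Nat.mod_eq_sub_mod (by omega), Nat.mod_eq_of_lt (by omega)]

theorem val_sub1 {m : ℕ} [NeZero m] (hm : 8 ≤ m) (k : ZMod m) :
    (k - 1).val = if k.val = 0 then m - 1 else k.val - 1 := by
  have h := val_add_nat (k - 1) (s := 1) (by omega)
  have e : k - 1 + ((1 : ℕ) : ZMod m) = k := by push_cast; ring
  rw [e] at h
  have h1 := ZMod.val_lt (k - 1)
  split_ifs at h ⊢ <;> omega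

theorem val_sub2 {m : ℕ} [NeZero m] (hm : 8 ≤ m) (k : ZMod m) :
    (k - 2).val = if k.val < 2 then k.val + m - 2 else k.val - 2 := by
  have h := val_add_nat (k - 2) (s := 2) (by omega)
  have e : k - 2 + ((2 : ℕ) : ZMod m) = k := by push_cast; ring
  rw [e] at h
  have h1 := ZMod.val_lt (k - 2)
  split_ifs at h ⊢ <;> omega

/-- the four parts of the neighbourhood sum at `(k, b)` -/
def OutP {m : ℕ} (y : V m → ℝ) (k : ZMod m) (b : Bool) : ℝ :=
  if k.val ≠ m - 2 then
    (if b = true then y (.inl (k + 1, true)) + y (.inl (k + 1, false))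
      else y (.inl (k + 2, true)) + y (.inl (k + 2, false))) else 0

def InP {m : ℕ} (y : V m → ℝ) (k : ZMod m) : ℝ :=
  (if k.val ≠ m - 1 then y (.inl (k - 1, true)) else 0) +
    (if k.val ≠ 0 then y (.inl (k - 2, false)) else 0)

def HP {m : ℕ} [NeZero m] (i : ℕ) (y : V m → ℝ) (k : ZMod m) : ℝ :=
  ∑ δ : ZMod m, (if HH i k δ then y (.inl (k + δ, true)) + y (.inl (k + δ, false)) else 0)

def CP {m : ℕ} (i : ℕ) (y : V m → ℝ) (v : ℕ) (b : Bool) : ℝ :=
  (if T1 i v then y (.inr 0) else 0) + (if T2 i v then y (.inr 1) else 0) +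
    (if T3 i m v then y (.inr 2) else 0) +
    (if v = 0 then (if b = true then y (.inr 0) else y (.inr 1)) else 0) +
    (if v = m - 2 then (if b = true then y (.inr 1) else y (.inr 0)) else 0)

theorem sum_PA {m : ℕ} [NeZero m] {i : ℕ} (hm : 8 * i + 8 ≤ m) (y : V m → ℝ) (k : ZMod m)
    (b : Bool) :
    ∑ δ : ZMod m, ∑ b' : Bool, (if PA i k b δ b' then y (.inl (k + δ, b')) else 0) =
      OutP y k b + InP y k + HP i y k := by
  have hA : ∑ δ : ZMod m, ∑ b' : Bool,
      (if k.val ≠ m - 2 ∧ δ.val = sh b then y (.inl (k + δ, b')) else 0) = OutP y k b := by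
    unfold OutP
    by_cases hk : k.val ≠ m - 2
    · have e1 := sum_val (M := m) (s := 1) (by omega)
        (fun δ => y (.inl (k + δ, true)) + y (.inl (k + δ, false)))
      have e2 := sum_val (M := m) (s := 2) (by omega)
        (fun δ => y (.inl (k + δ, true)) + y (.inl (k + δ, false)))
      simp only [Nat.cast_one, Nat.cast_ofNat] at e1 e2
      rw [if_pos hk]
      cases b
      · simp only [Bool.false_eq_true, if_false]
        rw [← e2]
        refine Finset.sum_congr rfl (fun δ _ => ?_)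
        rw [Fintype.sum_bool]
        by_cases h : δ.val = 2
        · simp [sh, h, hk]
        · simp [sh, h]
      · simp only [if_true]
        rw [← e1]
        refine Finset.sum_congr rfl (fun δ _ => ?_)
        rw [Fintype.sum_bool]
        by_cases h : δ.val = 1
        · simp [sh, h, hk]
        · simp [sh, h]
    · rw [if_neg hk]
      refine Finset.sum_eq_zero (fun δ _ => Finset.sum_eq_zero (fun b' _ => ?_))
      rw [if_neg (fun h => hk h.1)]
  have hB : ∑ δ : ZMod m, ∑ b' : Bool,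
      (if (k + δ).val ≠ m - 2 ∧ (-δ).val = sh b' then y (.inl (k + δ, b')) else 0) = InP y k := by
    unfold InP
    have e1 := sum_val_neg (M := m) (s := 1) (by omega)
      (fun δ => if (k + δ).val ≠ m - 2 then y (.inl (k + δ, true)) else 0)
    have e2 := sum_val_neg (M := m) (s := 2) (by omega)
      (fun δ => if (k + δ).val ≠ m - 2 then y (.inl (k + δ, false)) else 0)
    simp only [Nat.cast_one, Nat.cast_ofNat, ← sub_eq_add_neg] at e1 e2
    have f1 : ((k - 1).val ≠ m - 2) ↔ k.val ≠ m - 1 := by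
      rw [val_sub1 (by omega)]; have := ZMod.val_lt k; split_ifs <;> omega
    have f2 : ((k - 2).val ≠ m - 2) ↔ k.val ≠ 0 := by
      rw [val_sub2 (by omega)]; have := ZMod.val_lt k; split_ifs <;> omega
    simp only [f1] at e1
    simp only [f2] at e2
    rw [← e1, ← e2, ← Finset.sum_add_distrib]
    refine Finset.sum_congr rfl (fun δ _ => ?_)
    rw [Fintype.sum_bool]
    congr 1
    · by_cases h : (-δ).val = 1 <;> simp [sh, h]
    · by_cases h : (-δ).val = 2 <;> simp [sh, h]
  have hC : ∑ δ : ZMod m, ∑ b' : Bool,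
      (if HH i k δ then y (.inl (k + δ, b')) else 0) = HP i y k := by
    unfold HP
    refine Finset.sum_congr rfl (fun δ _ => ?_)
    rw [Fintype.sum_bool]
    split_ifs <;> simp
  rw [← hA, ← hB, ← hC, ← Finset.sum_add_distrib, ← Finset.sum_add_distrib]
  refine Finset.sum_congr rfl (fun δ _ => ?_)
  rw [← Finset.sum_add_distrib, ← Finset.sum_add_distrib]
  refine Finset.sum_congr rfl (fun b' _ => ?_)
  have hv := val_rel' δ
  have hs : ∀ c, sh c = 1 ∨ sh c = 2 := by intro c; unfold sh; split_ifs <;> simp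
  unfold PA
  refine ite_or3 ?_ ?_ ?_ _
  · rintro ⟨⟨_, h1⟩, ⟨_, h2⟩⟩
    have := hs b; have := hs b'; omega
  · rintro ⟨⟨_, h1⟩, h2⟩
    have := hs b; have := Dd_bd hm h2.1; omega
  · rintro ⟨⟨_, h1⟩, h2⟩
    have := hs b'; have := Dd_bd hm h2.1; omega

theorem sum_PC {m : ℕ} [NeZero m] {i : ℕ} (hm : 8 * i + 8 ≤ m) (y : V m → ℝ) (k : ZMod m)
    (b : Bool) :
    ∑ u : Fin 3, (if PC i k b u then y (.inr u) else 0) = CP i y k.val b := by
  rw [Fin.sum_univ_three]
  unfold CP
  have h0 : PC i k b 0 ↔ (T1 i k.val ∨ (k.val = 0 ∧ b = true) ∨ (k.val = m - 2 ∧ b = false)) := by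
    unfold PC; simp
  have h1 : PC i k b 1 ↔ (T2 i k.val ∨ (k.val = 0 ∧ b = false) ∨ (k.val = m - 2 ∧ b = true)) := by
    unfold PC; simp
  have h2 : PC i k b 2 ↔ T3 i m k.val := by
    unfold PC; simp
  simp only [h0, h1, h2]
  have g1 : ¬ T1 i 0 := by unfold T1; omega
  have g2 : ¬ T2 i 0 := by unfold T2; omega
  have g3 : ¬ T1 i (m - 2) := by unfold T1; omega
  have g4 : ¬ T2 i (m - 2) := by unfold T2; omega
  have g5 : (0 : ℕ) ≠ m - 2 := by omega
  by_cases hk0 : k.val = 0
  · rw [hk0]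
    cases b <;> simp [g1, g2, g5] <;> ring
  · by_cases hk2 : k.val = m - 2
    · rw [hk2]
      cases b <;> simp [g3, g4, g5.symm] <;> ring
    · simp [hk0, hk2]

theorem sum_inl {m : ℕ} [NeZero m] {i : ℕ} (hm : 8 * i + 8 ≤ m) (y : V m → ℝ) (k : ZMod m)
    (b : Bool) [DecidablePred (fun u : V m => (Gm i m hm).Adj (.inl (k, b)) u)] :
    ∑ u : V m, (if (Gm i m hm).Adj (.inl (k, b)) u then y u else 0) =
      OutP y k b + InP y k + HP i y k + CP i y k.val b := by
  rw [Fintype.sum_sum_type]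
  congr 1
  · rw [← sum_PA hm y k b, Fintype.sum_prod_type, ← Equiv.sum_comp (Equiv.addLeft k)]
    refine Finset.sum_congr rfl (fun δ _ => Finset.sum_congr rfl (fun b' _ => ?_))
    have e : (Gm i m hm).Adj (.inl (k, b)) (.inl ((Equiv.addLeft k) δ, b')) ↔ PA i k b δ b' := by
      show PA i k b (k + δ - k) b' ↔ _
      rw [add_sub_cancel_left]
    by_cases hh : PA i k b δ b'
    · rw [if_pos (e.2 hh), if_pos hh]; rfl
    · rw [if_neg (fun h' => hh (e.1 h')), if_neg hh]
  · rw [← sum_PC hm y k b]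
    refine Finset.sum_congr rfl (fun u _ => ?_)
    have e : (Gm i m hm).Adj (.inl (k, b)) (.inr u) ↔ PC i k b u := Iff.rfl
    by_cases hh : PC i k b u
    · rw [if_pos (e.2 hh), if_pos hh]
    · rw [if_neg (fun h' => hh (e.1 h')), if_neg hh]

theorem sum_inr {m : ℕ} [NeZero m] {i : ℕ} (hm : 8 * i + 8 ≤ m) (y : V m → ℝ) (u : Fin 3)
    [DecidablePred (fun w : V m => (Gm i m hm).Adj (.inr u) w)] :
    ∑ w : V m, (if (Gm i m hm).Adj (.inr u) w then y w else 0) =
      ∑ k : ZMod m, ∑ b : Bool, (if PC i k b u then y (.inl (k, b)) else 0) := by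
  rw [Fintype.sum_sum_type]
  have h0 : ∑ w : Fin 3, (if (Gm i m hm).Adj (.inr u) (.inr w) then y (.inr w) else 0) = 0 := by
    refine Finset.sum_eq_zero (fun w _ => ?_)
    have hf : ¬ (Gm i m hm).Adj (.inr u) (.inr w) := fun h => h
    rw [if_neg hf]
  rw [h0, add_zero, Fintype.sum_prod_type]
  refine Finset.sum_congr rfl (fun k _ => Finset.sum_congr rfl (fun b _ => ?_))
  have e : (Gm i m hm).Adj (.inr u) (.inl (k, b)) ↔ PC i k b u := Iff.rfl
  by_cases hh : PC i k b u
  · rw [if_pos (e.2 hh), if_pos hh]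
  · rw [if_neg (fun h' => hh (e.1 h')), if_neg hh]

/-- the sums at the three special vertices -/
theorem sum_inr0 {m : ℕ} [NeZero m] {i : ℕ} (hm : 8 * i + 8 ≤ m) (y : V m → ℝ) :
    ∑ k : ZMod m, ∑ b : Bool, (if PC i k b 0 then y (.inl (k, b)) else 0) =
      ∑ k : ZMod m, (if T1 i k.val then y (.inl (k, true)) + y (.inl (k, false)) else 0) +
        y (.inl (((0 : ℕ) : ZMod m), true)) + y (.inl (((m - 2 : ℕ) : ZMod m), false)) := by
  have e1 := sum_val (M := m) (s := 0) (by omega) (fun k => y (.inl (k, true)))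
  have e2 := sum_val (M := m) (s := m - 2) (by omega) (fun k => y (.inl (k, false)))
  rw [← e1, ← e2, ← Finset.sum_add_distrib, ← Finset.sum_add_distrib]
  refine Finset.sum_congr rfl (fun k _ => ?_)
  rw [Fintype.sum_bool]
  have h0 : ∀ b, PC i k b 0 ↔
      (T1 i k.val ∨ (k.val = 0 ∧ b = true) ∨ (k.val = m - 2 ∧ b = false)) := by
    intro b; unfold PC; simp
  simp only [h0]
  have g1 : ¬ T1 i 0 := by unfold T1; omega
  have g3 : ¬ T1 i (m - 2) := by unfold T1; omega
  have g5 : (0 : ℕ) ≠ m - 2 := by omega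
  by_cases hk0 : k.val = 0
  · simp [hk0, g1, g5]
  · by_cases hk2 : k.val = m - 2
    · simp [hk2, g3, g5.symm]
    · simp only [hk0, hk2, false_and, or_false, if_false, add_zero]
      split_ifs <;> simp

theorem sum_inr1 {m : ℕ} [NeZero m] {i : ℕ} (hm : 8 * i + 8 ≤ m) (y : V m → ℝ) :
    ∑ k : ZMod m, ∑ b : Bool, (if PC i k b 1 then y (.inl (k, b)) else 0) =
      ∑ k : ZMod m, (if T2 i k.val then y (.inl (k, true)) + y (.inl (k, false)) else 0) +
        y (.inl (((0 : ℕ) : ZMod m), false)) + y (.inl (((m - 2 : ℕ) : ZMod m), true)) := by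
  have e1 := sum_val (M := m) (s := 0) (by omega) (fun k => y (.inl (k, false)))
  have e2 := sum_val (M := m) (s := m - 2) (by omega) (fun k => y (.inl (k, true)))
  rw [← e1, ← e2, ← Finset.sum_add_distrib, ← Finset.sum_add_distrib]
  refine Finset.sum_congr rfl (fun k _ => ?_)
  rw [Fintype.sum_bool]
  have h0 : ∀ b, PC i k b 1 ↔
      (T2 i k.val ∨ (k.val = 0 ∧ b = false) ∨ (k.val = m - 2 ∧ b = true)) := by
    intro b; unfold PC; simp
  simp only [h0]
  have g1 : ¬ T2 i 0 := by unfold T2; omega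
  have g3 : ¬ T2 i (m - 2) := by unfold T2; omega
  have g5 : (0 : ℕ) ≠ m - 2 := by omega
  by_cases hk0 : k.val = 0
  · simp [hk0, g1, g5]
  · by_cases hk2 : k.val = m - 2
    · simp [hk2, g3, g5.symm]
    · simp only [hk0, hk2, false_and, or_false, if_false, add_zero]
      split_ifs <;> simp

theorem sum_inr2 {m : ℕ} [NeZero m] {i : ℕ} (y : V m → ℝ) :
    ∑ k : ZMod m, ∑ b : Bool, (if PC i k b 2 then y (.inl (k, b)) else 0) =
      ∑ k : ZMod m, (if T3 i m k.val then y (.inl (k, true)) + y (.inl (k, false)) else 0) := by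
  refine Finset.sum_congr rfl (fun k _ => ?_)
  rw [Fintype.sum_bool]
  have h0 : ∀ b, PC i k b 2 ↔ T3 i m k.val := by
    intro b; unfold PC; simp
  simp only [h0]
  split_ifs <;> simp

end Pool.Agent.TH903.Nut.Od
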