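import Mathlib
import Pool.Agent.TH903.Nut.OddMain

/-!
# A family of nut graphs of odd order: the proof
-/

set_option autoImplicit false

namespace Pool.Agent.TH903.Nut.Od

open Finset

theorem isReg_Gm {m : ℕ} [NeZero m] {i : ℕ} (hm : 8 * i + 8 ≤ m) :
    IsReg (Gm i m hm) (8 * i + 8) := by
  classical
  unfold IsReg
  have key : ∀ v : V m, ∑ u : V m, (if (Gm i m hm).Adj v u then (1 : ℝ) else 0) =
      ((8 * i + 8 : ℕ) : ℝ) := by
    rintro (⟨k, b⟩ | u)
    · rw [sum_inl hm (fun _ => (1 : ℝ)) k b]
      have hH : HP i (fun _ : V m => (1 : ℝ)) k = 2 * (4 * (i : ℝ) + 2 - (if Tg i k.val then 1 else 0)) := by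
        unfold HP
        rw [← sum_HH i m hm k, Finset.mul_sum]
        refine Finset.sum_congr rfl (fun δ _ => ?_)
        split_ifs <;> norm_num
      rw [hH]
      have hv := ZMod.val_lt k
      have hT : (if T1 i k.val then (1 : ℝ) else 0) + (if T2 i k.val then 1 else 0) +
          (if T3 i m k.val then 1 else 0) = 2 * (if Tg i k.val then 1 else 0) +
          (if k.val = m - 2 then 1 else 0) + (if k.val = m - 1 then 1 else 0) := by
        by_cases h1 : T1 i k.val <;> by_cases h2 : T2 i k.val <;> by_cases h3 : T3 i m k.val <;>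
          by_cases h4 : Tg i k.val <;> by_cases h5 : k.val = m - 2 <;>
          by_cases h6 : k.val = m - 1 <;>
          first
          | (exfalso; unfold T1 at h1; unfold T2 at h2; unfold T3 at h3; unfold Tg at h4; omega)
          | ((first | rw [if_pos h1] | rw [if_neg h1])
             (first | rw [if_pos h2] | rw [if_neg h2])
             (first | rw [if_pos h3] | rw [if_neg h3])
             (first | rw [if_pos h4] | rw [if_neg h4])
             (first | rw [if_pos h5] | rw [if_neg h5])
             (first | rw [if_pos h6] | rw [if_neg h6])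
             norm_num)
      have hC : CP i (fun _ : V m => (1 : ℝ)) k.val b = 2 * (if Tg i k.val then 1 else 0) +
          (if k.val = m - 2 then 1 else 0) + (if k.val = m - 1 then 1 else 0) +
          (if k.val = 0 then 1 else 0) + (if k.val = m - 2 then 1 else 0) := by
        unfold CP
        rw [← hT]
        cases b <;> simp
      rw [hC]
      unfold OutP InP
      generalize (if Tg i k.val then (1 : ℝ) else 0) = t
      have g5 : (0 : ℕ) ≠ m - 2 := by omega
      have g6 : (0 : ℕ) ≠ m - 1 := by omega
      have g7 : m - 2 ≠ m - 1 := by omega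
      push_cast
      by_cases h5 : k.val = m - 2
      · simp [h5, g5.symm, g7]; ring
      · by_cases h6 : k.val = m - 1
        · simp [h6, g6.symm, g7.symm]; ring
        · by_cases h7 : k.val = 0
          · simp [h7, g5, g6]; ring
          · simp [h5, h6, h7]; ring
    · rw [sum_inr hm (fun _ => (1 : ℝ)) u]
      have h3 : u = 0 ∨ u = 1 ∨ u = 2 := by fin_cases u <;> simp
      rcases h3 with rfl | rfl | rfl
      · rw [sum_inr0 hm (fun _ => (1 : ℝ))]
        have : ∑ k : ZMod m, (if T1 i k.val then (1 : ℝ) + 1 else 0) = 2 * (4 * (i : ℝ) + 3) := by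
          rw [← sum_T1 i m hm, Finset.mul_sum]
          refine Finset.sum_congr rfl (fun δ _ => ?_)
          split_ifs <;> norm_num
        rw [this]; push_cast; ring
      · rw [sum_inr1 hm (fun _ => (1 : ℝ))]
        have : ∑ k : ZMod m, (if T2 i k.val then (1 : ℝ) + 1 else 0) = 2 * (4 * (i : ℝ) + 3) := by
          rw [← sum_T2 i m hm, Finset.mul_sum]
          refine Finset.sum_congr rfl (fun δ _ => ?_)
          split_ifs <;> norm_num
        rw [this]; push_cast; ring
      · rw [sum_inr2 (fun _ => (1 : ℝ))]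
        have : ∑ k : ZMod m, (if T3 i m k.val then (1 : ℝ) + 1 else 0) = 2 * (4 * (i : ℝ) + 4) := by
          rw [← sum_T3 i m hm, Finset.mul_sum]
          refine Finset.sum_congr rfl (fun δ _ => ?_)
          split_ifs <;> norm_num
        rw [this]; push_cast; ring
  intro v
  have h1 := key v
  rw [Finset.sum_boole] at h1
  exact_mod_cast h1

/-- the kernel vector -/
def xx {m : ℕ} (i : ℕ) : V m → ℝ
  | .inl p => (if p.2 = true then 1 else -1) * (aa i m p.1.val : ℝ)
  | .inr u => if u = 2 then -2 else 1

theorem xx_ne {m : ℕ} [NeZero m] {i : ℕ} (hm : 8 * i + 8 ≤ m) (v : V m) : xx i v ≠ 0 := by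
  rcases v with ⟨k, b⟩ | u
  · have h1 : (aa i m k.val : ℝ) ≠ 0 := by exact_mod_cast aa_ne hm (ZMod.val_lt k)
    cases b <;> simp [xx, h1]
  · show (if u = 2 then (-2 : ℝ) else 1) ≠ 0
    split_ifs <;> norm_num

theorem xx_pair {m : ℕ} (i : ℕ) (k : ZMod m) :
    xx i (.inl (k, true)) + xx i (.inl (k, false)) = 0 := by
  simp [xx]

theorem HP_zero {m : ℕ} [NeZero m] {i : ℕ} {y : V m → ℝ}
    (hy : ∀ k, y (.inl (k, true)) + y (.inl (k, false)) = 0) (k : ZMod m) : HP i y k = 0 := by
  unfold HP
  refine Finset.sum_eq_zero (fun δ _ => ?_)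
  split_ifs
  · exact hy _
  · rfl

theorem OutP_zero {m : ℕ} {y : V m → ℝ}
    (hy : ∀ k, y (.inl (k, true)) + y (.inl (k, false)) = 0) (k : ZMod m) (b : Bool) :
    OutP y k b = 0 := by
  unfold OutP
  split_ifs
  · exact hy _
  · exact hy _
  · rfl

theorem xx_ker {m : ℕ} [NeZero m] {i : ℕ} (hm : 8 * i + 8 ≤ m) :
    InKer (Gm i m hm) (xx i) := by
  classical
  unfold InKer
  have a0 : aa i m 0 = -3 := by
    unfold aa FF; split_ifs <;> omega
  have a2 : aa i m (m - 2) = -3 := by
    unfold aa; split_ifs <;> omega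
  have v0 : ((((0 : ℕ) : ZMod m)).val) = 0 := by simp
  have v2 : ((((m - 2 : ℕ) : ZMod m)).val) = m - 2 := by
    rw [ZMod.val_natCast, Nat.mod_eq_of_lt (by omega)]
  rintro (⟨k, b⟩ | u)
  · rw [sum_inl hm (xx i) k b, OutP_zero (xx_pair i) k b, HP_zero (xx_pair i) k]
    have hv := ZMod.val_lt k
    have h1 := aa_eq hm hv
    have h2 : (((if k.val ≠ m - 1 then aa i m (if k.val = 0 then m - 1 else k.val - 1) else 0)
      - (if k.val ≠ 0 then aa i m (if k.val < 2 then k.val + m - 2 else k.val - 2) else 0)
      + ((if T1 i k.val then (1 : ℤ) else 0) + (if T2 i k.val then 1 else 0)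
        - 2 * (if T3 i m k.val then 1 else 0))
      + (if k.val = 0 ∨ k.val = m - 2 then 1 else 0) : ℤ) : ℝ) = 0 := by
      rw [h1]; simp
    have h3 : InP (xx i) k = (((if k.val ≠ m - 1 then
        aa i m (if k.val = 0 then m - 1 else k.val - 1) else 0)
      - (if k.val ≠ 0 then aa i m (if k.val < 2 then k.val + m - 2 else k.val - 2) else 0) : ℤ) :
        ℝ) := by
      unfold InP
      rw [← val_sub1 (by omega) k, ← val_sub2 (by omega) k]
      push_cast
      simp only [xx, if_true, Bool.false_eq_true, if_false, one_mul, neg_mul]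
      split_ifs <;> ring
    have h4 : CP i (xx i : V m → ℝ) k.val b = ((((if T1 i k.val then (1 : ℤ) else 0) +
        (if T2 i k.val then 1 else 0) - 2 * (if T3 i m k.val then 1 else 0))
      + (if k.val = 0 ∨ k.val = m - 2 then 1 else 0) : ℤ) : ℝ) := by
      unfold CP
      push_cast
      have e0 : xx i (.inr 0 : V m) = 1 := by simp [xx]
      have e1 : xx i (.inr 1 : V m) = 1 := by simp [xx]
      have e2 : xx i (.inr 2 : V m) = -2 := by simp [xx]
      rw [e0, e1, e2]
      have g5 : (0 : ℕ) ≠ m - 2 := by omega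
      have e3 : (if k.val = 0 then (if b = true then (1 : ℝ) else 1) else 0) +
          (if k.val = m - 2 then (if b = true then (1 : ℝ) else 1) else 0) =
          (if k.val = 0 ∨ k.val = m - 2 then 1 else 0) := by
        by_cases h5 : k.val = 0
        · simp [h5, g5]
        · by_cases h6 : k.val = m - 2
          · simp [h6, g5.symm]
          · simp [h5, h6]
      rw [← e3]
      split_ifs <;> ring
    rw [h3, h4, zero_add, add_zero, ← h2]
    push_cast
    ring
  · rw [sum_inr hm (xx i) u]
    have h3 : u = 0 ∨ u = 1 ∨ u = 2 := by fin_cases u <;> simp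
    have hz : ∀ (T : ℕ → Prop) [DecidablePred T], ∑ k : ZMod m, (if T k.val then
        xx i (.inl (k, true)) + xx i (.inl (k, false)) else 0) = 0 := by
      intro T _
      refine Finset.sum_eq_zero (fun k _ => ?_)
      split_ifs
      · exact xx_pair i k
      · rfl
    rcases h3 with rfl | rfl | rfl
    · rw [sum_inr0 hm (xx i), hz (T1 i)]
      simp only [xx, v0, v2, a0, a2]
      norm_num
    · rw [sum_inr1 hm (xx i), hz (T2 i)]
      simp only [xx, v0, v2, a0, a2]
      norm_num
    · rw [sum_inr2 (xx i), hz (T3 i m)]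

theorem uniq0 {m : ℕ} [NeZero m] {i : ℕ} (hm : 8 * i + 8 ≤ m) (y : V m → ℝ)
    (hy : InKer (Gm i m hm) y) (h0 : y (.inr 0) = 0) : ∀ v, y v = 0 := by
  classical
  have hsum := sum_ker_zero _ (by omega) (isReg_Gm hm) y hy
  have hE : ∀ (k : ZMod m) (b : Bool), OutP y k b + InP y k + HP i y k + CP i y k.val b = 0 := by
    intro k b
    rw [← sum_inl hm y k b]
    unfold InKer at hy
    convert hy (.inl (k, b))
  have hR : ∀ u : Fin 3, ∑ k : ZMod m, ∑ b : Bool,
      (if PC i k b u then y (.inl (k, b)) else 0) = 0 := by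
    intro u
    rw [← sum_inr hm y u]
    unfold InKer at hy
    convert hy (.inr u)
  have v2 : ((((m - 2 : ℕ) : ZMod m)).val) = m - 2 := by
    rw [ZMod.val_natCast, Nat.mod_eq_of_lt (by omega)]
  have g5 : (0 : ℕ) ≠ m - 2 := by omega
  have g6 : m - 2 ≠ 0 := by omega
  -- the two special vertices agree
  have h1 : y (.inr 1) = 0 := by
    have p1 := hE ((m - 2 : ℕ) : ZMod m) true
    have p2 := hE ((m - 2 : ℕ) : ZMod m) false
    unfold OutP CP at p1 p2
    rw [v2] at p1 p2
    simp only [ne_eq, not_true_eq_false, if_false, if_true, g6, Bool.false_eq_true] at p1 p2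
    linarith
  have hB : ∀ k : ZMod m, k.val ≠ m - 2 →
      y (.inl (k + 1, true)) + y (.inl (k + 1, false)) =
      y (.inl (k + 2, true)) + y (.inl (k + 2, false)) := by
    intro k hk
    have p1 := hE k true
    have p2 := hE k false
    unfold OutP CP at p1 p2
    simp only [ne_eq, hk, not_false_eq_true, if_true, Bool.false_eq_true, if_false, h0, h1,
      ite_self] at p1 p2
    linarith
  have hS : ∀ n : ℕ, n < m →
      y (.inl (((n : ℕ) : ZMod m), true)) + y (.inl (((n : ℕ) : ZMod m), false)) =
      y (.inl (0, true)) + y (.inl (0, false)) := by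
    intro n
    induction n with
    | zero => intro _; simp
    | succ n ih =>
      intro hn
      rw [← ih (by omega)]
      have hk : (((n : ZMod m) - 1)).val ≠ m - 2 := by
        rw [val_sub1 (by omega), ZMod.val_natCast, Nat.mod_eq_of_lt (by omega)]
        split_ifs <;> omega
      have := hB ((n : ZMod m) - 1) hk
      have e1 : (n : ZMod m) - 1 + 1 = n := by ring
      have e2 : (n : ZMod m) - 1 + 2 = ((n + 1 : ℕ) : ZMod m) := by push_cast; ring
      rw [e1, e2] at this
      exact this.symm
  have hSk : ∀ k : ZMod m, y (.inl (k, true)) + y (.inl (k, false)) =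
      y (.inl (0, true)) + y (.inl (0, false)) := by
    intro k
    have := hS k.val (ZMod.val_lt k)
    rwa [ZMod.natCast_zmod_val] at this
  have hs0 : y (.inl (0, true)) + y (.inl (0, false)) = 0 := by
    have h2 := hR 2
    rw [sum_inr2 y] at h2
    have h3 : ∑ k : ZMod m, (if T3 i m k.val then
        y (.inl (k, true)) + y (.inl (k, false)) else 0) =
        (4 * (i : ℝ) + 4) * (y (.inl (0, true)) + y (.inl (0, false))) := by
      rw [← sum_T3 i m hm, Finset.sum_mul]
      refine Finset.sum_congr rfl (fun k _ => ?_)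
      rw [hSk k]
      split_ifs <;> ring
    rw [h3] at h2
    rcases mul_eq_zero.1 h2 with h4 | h4
    · exfalso
      have : (0 : ℝ) ≤ i := Nat.cast_nonneg i
      linarith
    · exact h4
  have hD : ∀ k : ZMod m, y (.inl (k, true)) + y (.inl (k, false)) = 0 := by
    intro k; rw [hSk k, hs0]
  have h2 : y (.inr 2) = 0 := by
    rw [Fintype.sum_sum_type, Fintype.sum_prod_type, Fin.sum_univ_three, h0, h1] at hsum
    have h3 : ∑ k : ZMod m, ∑ b : Bool, y (.inl (k, b)) = 0 := by
      refine Finset.sum_eq_zero (fun k _ => ?_)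
      rw [Fintype.sum_bool]
      exact hD k
    rw [h3] at hsum
    linarith
  have hC0 : ∀ (v : ℕ) (b : Bool), CP i y v b = 0 := by
    intro v b
    unfold CP
    rw [h0, h1, h2]
    simp
  have hI : ∀ k : ZMod m, InP y k = 0 := by
    intro k
    have := hE k true
    rw [OutP_zero hD, HP_zero hD, hC0] at this
    linarith
  have hN : ∀ k : ZMod m, y (.inl (k, false)) = - y (.inl (k, true)) := by
    intro k; have := hD k; linarith
  have hlast : y (.inl ((0 : ZMod m) - 1, true)) = 0 := by
    have := hI 0
    unfold InP at this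
    rw [ZMod.val_zero] at this
    have g : (0 : ℕ) ≠ m - 1 := by omega
    simpa [g] using this
  have hst : ∀ n : ℕ, n + 3 ≤ m → y (.inl (((n : ℕ) : ZMod m), true)) = 0 := by
    intro n
    induction n with
    | zero =>
      intro _
      have := hI 1
      unfold InP at this
      have hv : (1 : ZMod m).val = 1 := by
        have : ((1 : ℕ) : ZMod m).val = 1 := by
          rw [ZMod.val_natCast, Nat.mod_eq_of_lt (by omega)]
        simpa using this
      rw [hv] at this
      have g : (1 : ℕ) ≠ m - 1 := by omega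
      have e : (1 : ZMod m) - 2 = 0 - 1 := by ring
      rw [if_pos g, if_pos (by norm_num), e, hN, hlast, sub_self] at this
      simpa using this
    | succ n ih =>
      intro hn
      have ih' := ih (by omega)
      have := hI ((n + 2 : ℕ) : ZMod m)
      unfold InP at this
      rw [ZMod.val_natCast, Nat.mod_eq_of_lt (show n + 2 < m by omega)] at this
      have g : n + 2 ≠ m - 1 := by omega
      have e1 : ((n + 2 : ℕ) : ZMod m) - 1 = ((n + 1 : ℕ) : ZMod m) := by push_cast; ring
      have e2 : ((n + 2 : ℕ) : ZMod m) - 2 = ((n : ℕ) : ZMod m) := by push_cast; ring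
      rw [if_pos g, if_pos (by omega), e1, e2, hN, ih'] at this
      simpa using this
  have hm2 : y (.inl (((m - 2 : ℕ) : ZMod m), true)) = 0 := by
    have h3 := hR 0
    rw [sum_inr0 hm y] at h3
    have h4 : ∑ k : ZMod m, (if T1 i k.val then
        y (.inl (k, true)) + y (.inl (k, false)) else 0) = 0 := by
      refine Finset.sum_eq_zero (fun k _ => ?_)
      split_ifs
      · exact hD k
      · rfl
    rw [h4, hst 0 (by omega), hN] at h3
    linarith
  have hT : ∀ k : ZMod m, y (.inl (k, true)) = 0 := by
    intro k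
    have hv := ZMod.val_lt k
    by_cases c1 : k.val + 3 ≤ m
    · have := hst k.val c1
      rwa [ZMod.natCast_zmod_val] at this
    · by_cases c2 : k.val = m - 2
      · rw [← c2, ZMod.natCast_zmod_val] at hm2
        exact hm2
      · have c3 : k.val = m - 1 := by omega
        have e : (0 : ZMod m) - 1 = k := by
          apply ZMod.val_injective
          rw [val_sub1 (by omega), ZMod.val_zero, if_pos rfl, c3]
        rw [e] at hlast
        exact hlast
  rintro (⟨k, b⟩ | u)
  · cases b
    · rw [hN, hT]; simp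
    · exact hT k
  · have h3 : u = 0 ∨ u = 1 ∨ u = 2 := by fin_cases u <;> simp
    rcases h3 with rfl | rfl | rfl
    · exact h0
    · exact h1
    · exact h2

theorem isNut_Gm {m : ℕ} [NeZero m] {i : ℕ} (hm : 8 * i + 8 ≤ m) : IsNut (Gm i m hm) := by
  classical
  refine ⟨?_, xx i, xx_ne hm, xx_ker hm, ?_⟩
  · simp only [Fintype.card_sum, Fintype.card_prod, ZMod.card, Fintype.card_bool, Fintype.card_fin]
    omega
  · intro y hy
    refine ⟨y (.inr 0), fun v => ?_⟩
    have hx := xx_ker (i := i) hm
    have hz : InKer (Gm i m hm) (fun v => y v - y (.inr 0) * xx i v) := by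
      unfold InKer at hy hx ⊢
      intro v
      have h1 := hy v
      have h2 := hx v
      have h3 : ∀ u : V m, (if (Gm i m hm).Adj v u then y u - y (.inr 0) * xx i u else 0) =
          (if (Gm i m hm).Adj v u then y u else 0) -
            y (.inr 0) * (if (Gm i m hm).Adj v u then xx i u else 0) := by
        intro u; split_ifs <;> ring
      rw [Finset.sum_congr rfl (fun u _ => h3 u), Finset.sum_sub_distrib, ← Finset.mul_sum, h1, h2]
      ring
    have h4 : y v - y (.inr 0) * xx i v = 0 := uniq0 hm _ hz (by simp [xx]) v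
    linarith

theorem card_V {m : ℕ} [NeZero m] : Fintype.card (V m) = 2 * m + 3 := by
  simp only [Fintype.card_sum, Fintype.card_prod, ZMod.card, Fintype.card_bool, Fintype.card_fin]
  ring

end Pool.Agent.TH903.Nut.Od
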